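import Pool.Agent.VGS.Dil7
import Pool.Agent.VGS.Dil13

/-! Module Dil: the dilation for `G = G₀ + a S`. -/

set_option autoImplicit false

open MvPolynomial

namespace Pool.Agent.VGS.V

/-! ### the direction -/

private theorem dil_c (k₁ : Fl) [Countable k₁] (j : Fin 4) (hj : (j : ℕ) ≤ 1)
    (S : MvPolynomial (Fin 4) ℂ) (a : ℂ) (q : Fin 4 → ℂ) (hq0 : ∀ i < j, q i = 0) (hqj : q j = 1)
    (hqS : aeval q S ≠ 0) (hqC : ∀ i, q i ∈ clo (adj k₁ {a})) :
    ∃ c : Fin 4 → ℂ, (∀ i, ∃ n : ℤ, c i = n) ∧ c j = 1 ∧ (∀ i < j, c i = 0) ∧ ¬ InD k₁ q c ∧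
      aeval c S ≠ 0 := by
  classical
  have h1 : ¬ AlgebraicIndependent k₁ ![q 2, q 3] := by
    intro h
    have h3 := h.injective
    have hI : (AlgebraicIndependent.matroid k₁ ℂ).Indep (Set.range ![q 2, q 3]) :=
      h.to_subtype_range
    have h4 : Set.range ![q 2, q 3] ⊆ (AlgebraicIndependent.matroid k₁ ℂ).closure {a} := by
      rw [AlgebraicIndependent.matroid_closure_eq]
      rintro _ ⟨i, rfl⟩
      fin_cases i
      · exact mem_clo_adj.1 (hqC 2)
      · exact mem_clo_adj.1 (hqC 3)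
    have h5 := hI.encard_le_eRk_of_subset h4
    rw [Matroid.eRk_closure_eq] at h5
    have h6 := h5.trans (Matroid.eRk_le_encard _ _)
    rw [Set.encard_singleton, ← Set.image_univ, h3.encard_image, Set.encard_univ,
      ENat.card_eq_coe_fintype_card, Fintype.card_fin] at h6
    exact absurd h6 (by norm_num)
  rw [ai_iff] at h1
  push Not at h1
  obtain ⟨P, hP, hP0, hPne⟩ := h1
  have hj2 : j ≠ 2 := by rintro rfl; revert hj; decide
  have hj3 : j ≠ 3 := by rintro rfl; revert hj; decide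
  have hlt : ∀ i < j, i ≠ 2 ∧ i ≠ 3 := by
    intro i hi
    have h0 := Fin.lt_def.1 hi
    refine ⟨?_, ?_⟩
    · rintro rfl
      have h22 : ((2 : Fin 4) : ℕ) = 2 := rfl
      omega
    · rintro rfl
      have h22 : ((3 : Fin 4) : ℕ) = 3 := rfl
      omega
  -- the substitution
  let T : (Fin 4 → ℂ) → Fin 4 → ℂ := fun z i => if i < j then 0 else if i = j then 1 else z i
  have hT2 : ∀ z : Fin 4 → ℂ, T z 2 = z 2 := by
    intro z
    change (if (2 : Fin 4) < j then (0 : ℂ) else if (2 : Fin 4) = j then 1 else z 2) = z 2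
    rw [if_neg (fun h => (hlt 2 h).1 rfl), if_neg (Ne.symm hj2)]
  have hT3 : ∀ z : Fin 4 → ℂ, T z 3 = z 3 := by
    intro z
    change (if (3 : Fin 4) < j then (0 : ℂ) else if (3 : Fin 4) = j then 1 else z 3) = z 3
    rw [if_neg (fun h => (hlt 3 h).2 rfl), if_neg (Ne.symm hj3)]
  let S' : MvPolynomial (Fin 4) ℂ :=
    aeval (fun i => if i < j then (0 : MvPolynomial (Fin 4) ℂ) else if i = j then 1 else X i) S
  have hS' : ∀ z : Fin 4 → ℂ, aeval z S' = aeval (T z) S := by
    intro z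
    change aeval z (aeval _ S) = _
    rw [← AlgHom.comp_apply, comp_aeval]
    congr 2
    funext i
    simp only [T]
    split_ifs <;> simp
  have hTq : T q = q := by
    funext i
    simp only [T]
    split_ifs with h2 h3
    · exact (hq0 i h2).symm
    · rw [h3, hqj]
    · rfl
  have hS'0 : S' ≠ 0 := by
    intro h
    apply hqS
    rw [← hTq, ← hS', h, map_zero]
  have hP'0 : rename ![(2 : Fin 4), 3] P ≠ 0 := by
    intro h
    exact hPne ((rename_injective (![2, 3] : Fin 2 → Fin 4) (by decide)) (by rw [h, map_zero]))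
  have h2 : ∃ n : Fin 4 → ℤ, eval (fun i => (n i : ℂ)) (rename ![(2 : Fin 4), 3] P * S') ≠ 0 := by
    by_contra hcon
    push Not at hcon
    apply mul_ne_zero hP'0 hS'0
    apply funext_set (fun _ => Set.range ((↑) : ℤ → ℂ))
    · intro i
      exact Set.infinite_range_of_injective Int.cast_injective
    · intro x hx
      choose n hn using fun i => hx i (Set.mem_univ i)
      have h3 : x = fun i => ((n i : ℤ) : ℂ) := _root_.funext fun i => (hn i).symm
      rw [h3, hcon n, map_zero]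
  obtain ⟨n, hn⟩ := h2
  rw [map_mul] at hn
  have hnP := left_ne_zero_of_mul hn
  have hnS := right_ne_zero_of_mul hn
  refine ⟨T fun i => (n i : ℂ), fun i => ?_, ?_, ?_, ?_, ?_⟩
  · simp only [T]
    split_ifs
    · exact ⟨0, by simp⟩
    · exact ⟨1, by simp⟩
    · exact ⟨n i, rfl⟩
  · simp [T]
  · intro i hi
    simp [T, hi]
  · intro hIn
    have h3 : aeval (T fun i => (n i : ℂ)) (rename ![(2 : Fin 4), 3] P) = 0 := by
      apply hIn
      · intro m
        by_cases hm : coeff m (rename ![(2 : Fin 4), 3] P) = 0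
        · rw [hm]; exact zero_mem _
        · obtain ⟨m', rfl, hm'⟩ := coeff_rename_ne_zero _ _ _ hm
          rw [coeff_rename_mapDomain _ (by decide)]
          exact hP m'
      · rw [aeval_rename, ← hP0]
        congr 2
        funext i
        fin_cases i <;> rfl
    apply hnP
    rw [← h3, ← coe_aeval_eq_eval]
    change aeval _ _ = aeval _ _
    rw [aeval_rename, aeval_rename]
    congr 2
    funext i
    fin_cases i
    · exact (hT2 (fun i => (n i : ℂ))).symm
    · exact (hT3 (fun i => (n i : ℂ))).symm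
  · rw [← hS', ← coe_aeval_eq_eval] at *
    exact hnS

/-! ### the parameter and the point -/

private theorem coef_GV {k₁ : Fl} {G S : MvPolynomial (Fin 4) ℂ} {a : ℂ} (hS : Coef k₁ S)
    (hG₀ : Coef k₁ (G - C a * S)) : Coef (adj k₁ {a}) G := by
  intro m
  have h1 : coeff m G = coeff m (G - C a * S) + a * coeff m S := by
    rw [coeff_sub, coeff_C_mul]; ring
  rw [h1]
  exact add_mem (le_adj _ _ (hG₀ m)) (mul_mem (subset_adj _ _ rfl) (le_adj _ _ (hS m)))

private theorem val_GV (G S : MvPolynomial (Fin 4) ℂ) (a : ℂ) (z : Fin 4 → ℂ) :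
    aeval z G = aeval z (G - C a * S) + a * aeval z S := by
  rw [map_sub, map_mul, aeval_C]
  change _ = _ - a * _ + _
  ring

/-- moving `a` to a nearby point `b`; the values at the moved point -/
private theorem move_ptV (k₁ : Fl) [Countable k₁] (a : ℂ) (ha : Transcendental k₁ a)
    (G S : MvPolynomial (Fin 4) ℂ) (hS : Coef k₁ S) (hG₀ : Coef k₁ (G - C a * S))
    (q : Fin 4 → ℂ) (hqG : aeval q G = 0) (hqS : aeval q S ≠ 0)
    (hqC : ∀ i, q i ∈ clo (adj k₁ {a})) :
    ∃ (V : ValuationSubring ℂ) (b : ℂ) (y : Fin 4 → ℂ), IsPl V (clo (adj k₁ {a})) ∧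
      b ∉ clo (adj k₁ {a}) ∧ Sp V (clo (adj k₁ {a})) b a ∧
      (∀ i, Sp V (clo (adj k₁ {a})) (y i) (q i)) ∧ InD k₁ q y ∧
      aeval y G = (a - b) * aeval y S ∧ aeval y S ≠ 0 := by
  obtain ⟨t, ht⟩ : ∃ t : ℂ, t = (aeval q S)⁻¹ := ⟨_, rfl⟩
  have htC : t ∈ clo (adj k₁ {a}) := by
    rw [ht]
    exact inv_mem (aeval_mem (hS.mono ((le_adj _ _).trans (le_clo _))) hqC)
  obtain ⟨V, b, y, hV, hb, hba, hy, hyD, hyb⟩ := move_pt k₁ a ha (Fin.snoc q t : Fin 5 → ℂ)
    (fun i => by
      refine Fin.lastCases ?_ (fun i => ?_) i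
      · rw [Fin.snoc_last]
        exact htC
      · rw [Fin.snoc_castSucc]
        exact hqC i)
  -- polynomials in the first four coordinates
  have hren : ∀ (f : MvPolynomial (Fin 4) ℂ) (z : Fin 5 → ℂ),
      aeval z (rename Fin.castSucc f) = aeval (fun i => z (Fin.castSucc i)) f := by
    intro f z
    rw [aeval_rename]
    rfl
  have hrenC : ∀ f : MvPolynomial (Fin 4) ℂ, Coef k₁ f →
      Coef k₁ (rename (Fin.castSucc : Fin 4 → Fin 5) f) := by
    intro f hf
    obtain ⟨f', rfl⟩ := coef_iff.1 hf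
    exact coef_iff.2 ⟨rename Fin.castSucc f', by rw [map_rename]⟩
  have hsn : (fun i : Fin 4 => (Fin.snoc q t : Fin 5 → ℂ) (Fin.castSucc i)) = q := by
    funext i
    rw [Fin.snoc_castSucc]
  have hXC : Coef k₁ (X (Fin.last 4) : MvPolynomial (Fin 5) ℂ) := fun m => by
    rw [coeff_X]
    split_ifs
    · exact one_mem _
    · exact zero_mem _
  have hmulC : ∀ f g : MvPolynomial (Fin 5) ℂ, Coef k₁ f → Coef k₁ g → Coef k₁ (f * g) := by
    intro f g hf hg
    obtain ⟨f', rfl⟩ := coef_iff.1 hf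
    obtain ⟨g', rfl⟩ := coef_iff.1 hg
    exact coef_iff.2 ⟨f' * g', by rw [map_mul]⟩
  have h1 := hyD (rename Fin.castSucc S * X (Fin.last 4) - 1) (fun m => by
    rw [coeff_sub]
    refine sub_mem (hmulC _ _ (hrenC _ hS) hXC m) ?_
    rw [coeff_one]
    split_ifs
    · exact one_mem _
    · exact zero_mem _) (by
    rw [map_sub, map_mul, map_one, aeval_X, hren, hsn, Fin.snoc_last, ht, mul_inv_cancel₀ hqS,
      sub_self])
  rw [map_sub, map_mul, map_one, aeval_X, hren, sub_eq_zero] at h1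
  have h2 := hyb (-(rename Fin.castSucc (G - C a * S) * X (Fin.last 4))) (fun m => by
    rw [coeff_neg]
    exact neg_mem (hmulC _ _ (hrenC _ hG₀) hXC m)) (by
    rw [map_neg, map_mul, aeval_X, hren, hsn, Fin.snoc_last, ht]
    have h3 := val_GV G S a q
    rw [hqG] at h3
    field_simp
    linear_combination h3)
  rw [map_neg, map_mul, aeval_X, hren] at h2
  obtain ⟨v, hv⟩ : ∃ v : Fin 4 → ℂ, v = fun i => y (Fin.castSucc i) := ⟨_, rfl⟩
  rw [← hv] at h1 h2
  refine ⟨V, b, v, hV, hb, hba, fun i => ?_, fun f hf hf0 => ?_, ?_, ?_⟩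
  · have := hy (Fin.castSucc i)
    rw [Fin.snoc_castSucc] at this
    rw [hv]
    exact this
  · have := hyD (rename Fin.castSucc f) (hrenC f hf) (by rw [hren, hsn, hf0])
    rwa [hren, ← hv] at this
  · rw [val_GV G S a v]
    have h3 : aeval v (G - C a * S) = -(b * aeval v S) := by
      linear_combination (-(aeval v S)) * h2 - (aeval v (G - C a * S)) * h1
    rw [h3]
    ring
  · intro h
    rw [h, zero_mul] at h1
    exact zero_ne_one h1

private theorem dil_us (k₁ : Fl) [Countable k₁] (j : Fin 4) {d : ℕ}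
    (G S : MvPolynomial (Fin 4) ℂ) (hG : G.IsHomogeneous d) (a : ℂ) (ha : Transcendental k₁ a)
    (hS : Coef k₁ S) (hG₀ : Coef k₁ (G - C a * S)) (q : Fin 4 → ℂ) (hq0 : ∀ i < j, q i = 0)
    (hqj : q j = 1) (hqG : aeval q G = 0) (hqS : aeval q S ≠ 0)
    (hqC : ∀ i, q i ∈ clo (adj k₁ {a})) (c : Fin 4 → ℂ)
    (hcZ : ∀ i, ∃ n : ℤ, c i = n) (hcj : c j = 1) (hc0 : ∀ i < j, c i = 0)
    (hc : ¬ InD k₁ q c) (hcS : aeval c S ≠ 0) :
    ∃ (u : ℂ) (s : Fin 4 → ℂ) (V : ValuationSubring ℂ), u ∉ clo (adj k₁ {a}) ∧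
      (∀ i < j, s i = 0) ∧ s j = 1 ∧ aeval s G = 0 ∧
      InD k₁ q (fun i => (1 - u) * s i + u * c i) ∧ (∃ i, s i ∉ clo (adj k₁ {a})) ∧
      IsPl V (clo (adj k₁ {a})) ∧ Sp V (clo (adj k₁ {a})) u 0 ∧
      ∀ i, Sp V (clo (adj k₁ {a})) (s i) (q i) := by
  obtain ⟨V, b, y, hV, hb, hba, hy, hyD, hyG, hyS⟩ := move_ptV k₁ a ha G S hS hG₀ q hqG hqS hqC
  have hK : clo (clo (adj k₁ {a})) = clo (adj k₁ {a}) := clo_clo _
  have hk₁K : k₁ ≤ clo (adj k₁ {a}) := (le_adj _ _).trans (le_clo _)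
  have haK : a ∈ clo (adj k₁ {a}) := le_clo _ (subset_adj _ _ rfl)
  generalize hKdef : clo (adj k₁ {a}) = K at *
  have hck : ∀ i, c i ∈ k₁ := fun i => by
    obtain ⟨n, hn⟩ := hcZ i
    rw [hn]; exact intCast_mem k₁ n
  have hcK : ∀ i, c i ∈ K := fun i => hk₁K (hck i)
  have hGK : Coef K G := by
    rw [← hKdef]
    exact (coef_GV hS hG₀).mono (le_clo _)
  have hab : a ≠ b := by rintro rfl; exact hb haK
  -- the coordinates of `y`
  have hy0 : ∀ i < j, y i = 0 := by
    intro i hi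
    have h1 := hyD (X i) (fun m => by
      rw [coeff_X]
      split_ifs
      · exact one_mem _
      · exact zero_mem _) (by rw [aeval_X]; exact hq0 i hi)
    rwa [aeval_X] at h1
  have hyj : y j = 1 := by
    have h1 := hyD (X j - 1) (fun m => by
      rw [coeff_sub]
      refine sub_mem ?_ ?_
      · rw [coeff_X]
        split_ifs
        · exact one_mem _
        · exact zero_mem _
      · rw [coeff_one]
        split_ifs
        · exact one_mem _
        · exact zero_mem _) (by rw [map_sub, aeval_X, map_one, hqj, sub_self])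
    rw [map_sub, aeval_X, map_one] at h1
    exact sub_eq_zero.1 h1
  -- the polynomial in the parameter
  let P : Polynomial ℂ :=
    aeval (fun i => Polynomial.C (y i) - Polynomial.X * Polynomial.C (c i)) G
  let P' : Polynomial ℂ :=
    aeval (fun i => Polynomial.C (q i) - Polynomial.X * Polynomial.C (c i)) G
  have hPP : SpPoly V K P P' := by
    refine SpPoly.aeval hV hGK fun i => ?_
    exact (SpPoly.C hV (hy i)).sub hV ((SpPoly.X hV).mul hV (SpPoly.C hV (Sp.const hV (hcK i))))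
  have hdeg : ∀ z : Fin 4 → ℂ,
      (aeval (fun i => Polynomial.C (z i) - Polynomial.X * Polynomial.C (c i)) G :
        Polynomial ℂ).natDegree ≤ d := by
    intro z
    refine natDegree_aeval_line hG.totalDegree_le _ fun i => ?_
    refine (Polynomial.natDegree_sub_le _ _).trans ?_
    refine max_le ?_ ?_
    · rw [Polynomial.natDegree_C]; exact Nat.zero_le _
    · refine (Polynomial.natDegree_mul_C_le _ _).trans ?_
      rw [Polynomial.natDegree_X]
  have hev : ∀ (z : Fin 4 → ℂ) (t : ℂ),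
      (aeval (fun i => Polynomial.C (z i) - Polynomial.X * Polynomial.C (c i)) G :
        Polynomial ℂ).eval t = aeval (fun i => z i - t * c i) G := by
    intro z t
    rw [eval_aeval_line]
    congr 1
    congr 1
    funext i
    rw [Polynomial.eval_sub, Polynomial.eval_mul, Polynomial.eval_X, Polynomial.eval_C,
      Polynomial.eval_C]
  have hsum : ∀ (R : Polynomial ℂ), R.natDegree ≤ d → ∀ t : ℂ,
      ∑ i : Fin (d + 1), R.coeff i * t ^ (i : ℕ) = R.eval t := by
    intro R hR t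
    rw [Polynomial.eval_eq_sum_range' (Nat.lt_succ_of_le hR)]
    exact Fin.sum_univ_eq_sum_range (fun n => R.coeff n * t ^ n) (d + 1)
  have hP'0 : P' ≠ 0 := by
    intro h0
    -- the reversed polynomial
    let R : Polynomial ℂ :=
      aeval (fun i => Polynomial.X * Polynomial.C (q i) - Polynomial.C (c i)) G
    have hR : ∀ t : ℂ, t ≠ 0 → R.eval t = 0 := by
      intro t ht
      have h1 := hev q t⁻¹
      change P'.eval t⁻¹ = _ at h1
      rw [h0, Polynomial.eval_zero] at h1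
      change Polynomial.eval t (aeval _ G) = 0
      rw [eval_aeval_line, aeval_scale hG (w := fun i => q i - t⁻¹ * c i) (a := t), ← h1, mul_zero]
      intro i
      simp only [Polynomial.eval_sub, Polynomial.eval_mul, Polynomial.eval_X, Polynomial.eval_C]
      rw [mul_sub, mul_inv_cancel_left₀ ht]
    have hR0 : R = 0 := by
      refine Polynomial.eq_zero_of_infinite_isRoot _ ?_
      refine Set.Infinite.mono (s := {0}ᶜ) (fun t ht => hR t ht) ?_
      exact (Set.finite_singleton (0 : ℂ)).infinite_compl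
    have h1 : R.eval 0 = 0 := by rw [hR0, Polynomial.eval_zero]
    change Polynomial.eval 0 (aeval _ G) = 0 at h1
    rw [eval_aeval_line, aeval_scale hG (w := c) (a := -1)] at h1
    · have h2 : aeval c G = 0 := by
        rcases mul_eq_zero.1 h1 with h | h
        · exact absurd h (pow_ne_zero _ (neg_ne_zero.2 one_ne_zero))
        · exact h
      rw [val_GV G S a c] at h2
      have h3 : a = -(aeval c (G - C a * S) * (aeval c S)⁻¹) := by
        field_simp
        linear_combination h2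
      apply ha
      have h4 : aeval c (G - C a * S) ∈ k₁ := aeval_mem hG₀ hck
      have h5 : aeval c S ∈ k₁ := aeval_mem hS hck
      rw [h3]
      exact isAlgebraic_algebraMap (⟨_, neg_mem (mul_mem h4 (inv_mem h5))⟩ : k₁)
    · intro i
      simp
  obtain ⟨u, hu, hu0⟩ := exists_root_sp hK hV (n := d) (fun i => P.coeff i) (fun i => P'.coeff i)
    (fun i => hPP i) (by
      by_contra hcon
      push Not at hcon
      apply hP'0
      ext n
      rw [Polynomial.coeff_zero]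
      by_cases hn : n < d + 1
      · exact hcon ⟨n, hn⟩
      · exact Polynomial.coeff_eq_zero_of_natDegree_lt (lt_of_le_of_lt (hdeg q) (by omega)))
    (r := 0) K.zero_mem (by
      rw [hsum P' (hdeg q)]
      have h1 := hev q 0
      change P'.eval 0 = _ at h1
      have h2 : (fun i => q i - 0 * c i) = q := by funext i; ring
      rw [h1, h2, hqG])
  rw [hsum P (hdeg y)] at hu
  have huG : aeval (fun i => y i - u * c i) G = 0 := by
    rw [← hev y u]; exact hu
  have hune : u ≠ 0 := by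
    rintro rfl
    have h1 : (fun i => y i - 0 * c i) = y := by funext i; ring
    rw [h1, hyG] at huG
    exact mul_ne_zero (sub_ne_zero.2 hab) hyS huG
  have huK : u ∉ K := by
    intro h
    have h1 := val_const hV h hune
    have h2 := hu0.2
    rw [sub_zero, h1] at h2
    exact lt_irrefl _ h2
  have hu1 : (1 - u) ≠ 0 := by
    intro h
    apply huK
    rw [← sub_eq_zero.1 h]
    exact K.one_mem
  have hys : ∀ i, y i = (1 - u) * ((y i - u * c i) / (1 - u)) + u * c i := by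
    intro i
    rw [mul_div_cancel₀ _ hu1]
    ring
  have hys' : (fun i => (1 - u) * ((y i - u * c i) / (1 - u)) + u * c i) = y :=
    funext fun i => (hys i).symm
  have hsp : ∀ i, Sp V K ((y i - u * c i) / (1 - u)) (q i) := by
    intro i
    have h1 := ((hy i).sub hV (hu0.mul hV (Sp.const hV (hcK i)))).div hV
      ((Sp.const hV K.one_mem).sub hV hu0) (by rw [sub_zero]; exact one_ne_zero)
    rwa [zero_mul, sub_zero, sub_zero, div_one] at h1
  refine ⟨u, fun i => (y i - u * c i) / (1 - u), V, huK, ?_, ?_, ?_, ?_, ?_, hV, hu0, hsp⟩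
  · intro i hi
    change (y i - u * c i) / (1 - u) = 0
    rw [hy0 i hi, hc0 i hi, mul_zero, sub_zero, zero_div]
  · change (y j - u * c j) / (1 - u) = 1
    rw [hyj, hcj, mul_one]
    exact div_self hu1
  · rw [aeval_scale hG (w := fun i => y i - u * c i) (a := (1 - u)⁻¹), huG, mul_zero]
    intro i
    rw [div_eq_inv_mul]
  · rw [hys']
    exact hyD
  · by_contra hcon
    push Not at hcon
    have h1 : ∀ i, (y i - u * c i) / (1 - u) = q i := fun i =>
      (Sp.const hV (hcon i)).unique hV (hsp i)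
    apply hc
    intro f hf hqf
    -- the polynomial in the parameter
    let T : Polynomial ℂ := aeval (fun i => (Polynomial.C 1 - Polynomial.X) * Polynomial.C (q i) +
      Polynomial.X * Polynomial.C (c i)) f
    have hTT : SpPoly V K T T := by
      refine SpPoly.aeval hV (hf.mono hk₁K) fun i => ?_
      refine SpPoly.add hV (SpPoly.mul hV (SpPoly.sub hV ?_ (SpPoly.X hV)) ?_)
        (SpPoly.mul hV (SpPoly.X hV) ?_)
      · exact SpPoly.C hV (Sp.const hV K.one_mem)
      · exact SpPoly.C hV (Sp.const hV (hqC i))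
      · exact SpPoly.C hV (Sp.const hV (hcK i))
    have hTu : T.eval u = 0 := by
      change Polynomial.eval u (aeval _ f) = 0
      rw [eval_aeval_line, ← hyD f hf hqf]
      congr 1
      congr 1
      funext i
      rw [hys i, h1 i, Polynomial.eval_add, Polynomial.eval_mul, Polynomial.eval_mul,
        Polynomial.eval_sub, Polynomial.eval_X, Polynomial.eval_C, Polynomial.eval_C,
        Polynomial.eval_C]
    have hT0 : T = 0 := by
      by_contra hT
      apply huK
      rw [← hK, mem_clo_iff_exists]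
      exact ⟨T, hT, fun n => (hTT n).1, hTu⟩
    have hT1 : T.eval 1 = 0 := by rw [hT0, Polynomial.eval_zero]
    change Polynomial.eval 1 (aeval _ f) = 0 at hT1
    rw [eval_aeval_line] at hT1
    rw [← hT1]
    congr 1
    congr 1
    funext i
    simp

/-- (ii) -/
private theorem dil_ii (k₁ : Fl)
    (G S : MvPolynomial (Fin 4) ℂ) (a : ℂ) (ha : Transcendental k₁ a) (hS : Coef k₁ S)
    (hG₀ : Coef k₁ (G - C a * S)) (q : Fin 4 → ℂ)
    (hqC : ∀ i, q i ∈ clo (adj k₁ {a})) {u : ℂ} (hu : u ∉ clo (adj k₁ {a})) {c : Fin 4 → ℂ}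
    (hc : ∀ i, ∃ n : ℤ, c i = n) {s : Fin 4 → ℂ} (hsS : aeval s S ≠ 0) (hsG : aeval s G = 0)
    (hs : InD k₁ q (fun i => (1 - u) * s i + u * c i)) :
    ∀ i, s i ∈ clo (adj (adj k₁ {a}) {u}) := by
  set y : Fin 4 → ℂ := fun i => (1 - u) * s i + u * c i with hy
  have hu1 : 1 - u ≠ 0 := by
    intro h
    apply hu
    have : u = 1 := by linear_combination -h
    rw [this]; exact one_mem _
  have hcm : ∀ (L : Fl) i, c i ∈ L := by
    intro L i
    obtain ⟨n, hn⟩ := hc i
    rw [hn]; exact intCast_mem _ n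
  have hsi : ∀ i, s i = (y i - u * c i) / (1 - u) := by
    intro i
    rw [eq_div_iff hu1, hy]; ring
  have hsm : ∀ L : Fl, u ∈ L → (∀ i, y i ∈ L) → ∀ i, s i ∈ L := by
    intro L huL hyL i
    rw [hsi i]
    exact div_mem (sub_mem (hyL i) (mul_mem huL (hcm L i))) (sub_mem (one_mem _) huL)
  have ham : ∀ L : Fl, k₁ ≤ L → u ∈ L → (∀ i, y i ∈ L) → a ∈ L := by
    intro L hkL huL hyL
    have h1 := val_GV G S a s
    rw [hsG] at h1
    have h2 : aeval s (G - C a * S) ∈ L := aeval_mem (hG₀.mono hkL) (hsm L huL hyL)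
    have h3 : aeval s S ∈ L := aeval_mem (hS.mono hkL) (hsm L huL hyL)
    have h4 : a = -(aeval s (G - C a * S) / aeval s S) := by
      field_simp
      linear_combination -h1
    rw [h4]
    exact neg_mem (div_mem h2 h3)
  have ha' : a ∉ clo k₁ := by rw [mem_clo]; exact ha
  have hau : a ∉ clo (adj k₁ {u}) := fun h => hu (clo_exch h ha')
  have huu : ∀ (L : Fl) (S : Set ℂ), u ∈ S → u ∈ clo (adj L S) := fun L S h =>
    le_clo _ (subset_adj L S h)
  have hB : ∃ l, y l ∉ clo (adj k₁ {u}) := by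
    by_contra hcon
    push Not at hcon
    exact hau (ham _ ((le_adj _ _).trans (le_clo _)) (huu _ _ rfl) hcon)
  obtain ⟨l, hl⟩ := hB
  have hl1 : y l ∉ clo k₁ := fun h => hl (clo_mono (le_adj _ _) h)
  have hyl : ∀ i, y i ∈ clo (adj k₁ {y l}) := by
    intro i
    by_contra hi
    have h1 := algInd_pair_iff.2 ⟨hl1, hi⟩
    obtain ⟨f, hfk, hf0, hf⟩ := exists_dep (hqC i) (hqC l)
    apply hf0
    refine algInd_pair' h1 f hfk ?_
    have h2 := hs (rename ![i, l] f) ?_ ?_
    · rw [aeval_rename] at h2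
      convert h2 using 3
      funext t
      fin_cases t
      · rfl
      · rfl
    · obtain ⟨f', rfl⟩ := coef_iff.1 hfk
      exact coef_iff.2 ⟨rename ![i, l] f', by rw [map_rename]⟩
    · rw [aeval_rename]
      convert hf using 3
      funext t
      fin_cases t
      · rfl
      · rfl
  have hyl' : ∀ L : Fl, k₁ ≤ clo L → y l ∈ clo L → ∀ i, y i ∈ clo L := by
    intro L hkL hyL i
    exact clo_adj_le hkL (by simpa using hyL) (hyl i)
  have h3 : a ∈ clo (adj (adj k₁ {u}) {y l}) := by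
    refine ham _ ?_ ?_ (hyl' _ ?_ ?_)
    · exact ((le_adj _ _).trans (le_adj _ _)).trans (le_clo _)
    · exact le_clo _ (le_adj _ _ (subset_adj _ _ rfl))
    · exact ((le_adj _ _).trans (le_adj _ _)).trans (le_clo _)
    · exact le_clo _ (subset_adj _ _ rfl)
  have h4 : y l ∈ clo (adj (adj k₁ {u}) {a}) := clo_exch h3 hau
  have h5 : adj (adj k₁ {u}) {a} = adj (adj k₁ {a}) {u} := by
    rw [adj_adj, adj_adj, Set.union_comm]
  rw [h5] at h4
  have hk : k₁ ≤ clo (adj (adj k₁ {a}) {u}) := ((le_adj _ _).trans (le_adj _ _)).trans (le_clo _)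
  exact hsm _ (le_clo _ (subset_adj _ _ rfl)) (hyl' _ hk h4)


/-- relations of `q` and of a point `w` of the curve on `G = 0` -/
private theorem dil_rel (k₁ : Fl)
    (G S : MvPolynomial (Fin 4) ℂ) (a : ℂ) (hS : Coef k₁ S)
    (hG₀ : Coef k₁ (G - C a * S)) (q : Fin 4 → ℂ) (hqG : aeval q G = 0)
    (hqC : ∀ i, q i ∈ clo (adj k₁ {a})) {w : Fin 4 → ℂ} (hwG : aeval w G = 0)
    (hwS : aeval w S ≠ 0) (hw : InD k₁ q w) : InD k₁ w q := by
  rw [inD_iff]
  intro f hf
  by_contra hx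
  set x : ℂ := aeval q f with hxd
  have hxC : x ∈ clo (adj k₁ {a}) := by
    have h1 : x = aeval q (map (algebraMap k₁ ℂ) f) := by
      simp [hxd, aeval_def, eval₂_map]
    rw [h1]
    exact aeval_mem (fun m => le_clo _ (le_adj _ _ (coef_iff.2 ⟨f, rfl⟩ m))) hqC
  rw [mem_clo_adj] at hxC
  obtain ⟨R, hR0, hR⟩ := hxC.exists_nonzero_coeff_and_aeval_eq_zero
    (mem_nonZeroDivisors_of_ne_zero hx)
  obtain ⟨g₀, hg₀⟩ := coef_iff.1 hG₀
  obtain ⟨s₀, hs₀⟩ := coef_iff.1 hS
  have hval : ∀ z : Fin 4 → ℂ, aeval z G = 0 → aeval z g₀ = -(a * aeval z s₀) := by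
    intro z hz
    have h1 := val_GV G S a z
    rw [hz, ← hg₀, ← hs₀] at h1
    simp only [aeval_def, eval₂_map] at h1 ⊢
    linear_combination -h1
  have hs₀' : ∀ z : Fin 4 → ℂ, aeval z S = aeval z s₀ := by
    intro z
    rw [← hs₀]
    simp [aeval_def, eval₂_map]
  have hr : ∀ i, ∃ r : Polynomial k₁, Polynomial.aeval a r = (R.coeff i : ℂ) := by
    intro i
    obtain ⟨b, hb⟩ := R.coeff i
    rw [Algebra.adjoin_singleton_eq_range_aeval] at hb
    exact hb
  choose r hr using hr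
  -- a bound for the degrees
  obtain ⟨n, hn⟩ : ∃ n : ℕ, ∀ i ∈ Finset.range (R.natDegree + 1), (r i).natDegree ≤ n :=
    ⟨(Finset.range (R.natDegree + 1)).sup fun i => (r i).natDegree,
      fun i hi => Finset.le_sup (f := fun i => (r i).natDegree) hi⟩
  set Q : MvPolynomial (Fin 4) k₁ :=
    ∑ i ∈ Finset.range (R.natDegree + 1), (∑ l ∈ Finset.range (n + 1),
      C ((r i).coeff l) * (-g₀) ^ l * s₀ ^ (n - l)) * f ^ i with hQ
  have key : ∀ z : Fin 4 → ℂ, aeval z G = 0 →
      aeval z Q = aeval z s₀ ^ n *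
        ∑ i ∈ Finset.range (R.natDegree + 1), (R.coeff i : ℂ) * (aeval z f) ^ i := by
    intro z hz
    rw [hQ, map_sum, Finset.mul_sum]
    refine Finset.sum_congr rfl fun i hi => ?_
    rw [map_mul, map_pow, map_sum, ← hr i, Polynomial.aeval_eq_sum_range' (Nat.lt_succ_of_le
      (hn i hi)), Finset.sum_mul, Finset.sum_mul, Finset.mul_sum]
    refine Finset.sum_congr rfl fun l hl => ?_
    have hl' : l ≤ n := Nat.lt_succ_iff.1 (Finset.mem_range.1 hl)
    rw [map_mul, map_mul, map_pow, map_pow, map_neg, hval z hz, neg_neg, aeval_C, mul_pow,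
      Algebra.smul_def]
    have h5 : aeval z s₀ ^ n = aeval z s₀ ^ l * aeval z s₀ ^ (n - l) := by
      rw [← pow_add, Nat.add_sub_cancel' hl']
    rw [h5]
    ring
  have h1 : aeval q Q = 0 := by
    rw [key q hqG]
    rw [Polynomial.aeval_eq_sum_range] at hR
    have h2 : ∑ i ∈ Finset.range (R.natDegree + 1), (R.coeff i : ℂ) * (aeval q f) ^ i = 0 := by
      rw [← hR]
      refine Finset.sum_congr rfl fun i _ => ?_
      rfl
    rw [h2, mul_zero]
  have h2 := (inD_iff.1 hw) Q h1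
  rw [key w hwG, Finset.sum_range_succ', hf] at h2
  rcases mul_eq_zero.1 h2 with h3 | h3
  · apply hwS
    rw [hs₀' w]
    by_contra h4
    exact pow_ne_zero n h4 h3
  · simp at h3
    exact hR0 h3

/-- two points with the same relations, on `G = 0` -/
private theorem dil_conj (k₁ : Fl) [Countable k₁]
    (G S : MvPolynomial (Fin 4) ℂ) (a : ℂ) (hS : Coef k₁ S)
    (hG₀ : Coef k₁ (G - C a * S)) (q : Fin 4 → ℂ) (hqG : aeval q G = 0)
    {w : Fin 4 → ℂ} (hwG : aeval w G = 0) (hwS : aeval w S ≠ 0)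
    (hw : InD k₁ q w) (hw' : InD k₁ w q) : ∃ σ ∈ Fix (adj k₁ {a}), ∀ i, σ (q i) = w i := by
  obtain ⟨σ, hσ, h⟩ := exists_fix k₁ q w fun P hP => ⟨hw P hP, hw' P hP⟩
  refine ⟨σ, ?_, h⟩
  rw [mem_Fix_adj]
  refine ⟨hσ, ?_⟩
  intro x hx
  rw [Set.mem_singleton_iff] at hx
  subst hx
  have h4 : (fun i => σ (q i)) = w := funext h
  have h1 := val_GV G S x q
  have h2 := val_GV G S x w
  rw [hqG] at h1
  rw [hwG] at h2
  have h3 := congrArg σ h1
  rw [map_zero, map_add, map_mul, ← aeval_fix hG₀ hσ, ← aeval_fix hS hσ, h4] at h3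
  have h5 : (σ x - x) * aeval w S = 0 := by linear_combination h2 - h3
  exact sub_eq_zero.1 ((mul_eq_zero.1 h5).resolve_right hwS)

/-- (iv) -/
private theorem dil_iv (k₁ : Fl) [Countable k₁]
    (G S : MvPolynomial (Fin 4) ℂ) (a : ℂ) (hS : Coef k₁ S)
    (hG₀ : Coef k₁ (G - C a * S)) (q : Fin 4 → ℂ) (hqG : aeval q G = 0)
    (hqC : ∀ i, q i ∈ clo (adj k₁ {a})) {u : ℂ} {c : Fin 4 → ℂ}
    (hc : ∀ i, ∃ n : ℤ, c i = n) {s : Fin 4 → ℂ} (hsG : aeval s G = 0)
    (hs : InD k₁ q (fun i => (1 - u) * s i + u * c i)) {V : ValuationSubring ℂ}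
    (hV : IsPl V (clo (adj k₁ {a}))) (hu : Sp V (clo (adj k₁ {a})) u 0) {w : Fin 4 → ℂ}
    (hw : ∀ i, Sp V (clo (adj k₁ {a})) (s i) (w i)) :
    aeval w G = 0 ∧ InD k₁ q w ∧
      (aeval w S ≠ 0 → ∃ σ ∈ Fix (adj k₁ {a}), ∀ i, σ (q i) = w i) := by
  have hone : Sp V (clo (adj k₁ {a})) 1 1 := Sp.const hV (one_mem _)
  have hzero : Sp V (clo (adj k₁ {a})) 0 0 := Sp.const hV (zero_mem _)
  have hk : k₁ ≤ clo (adj k₁ {a}) := (le_adj _ _).trans (le_clo _)
  have hwG : aeval w G = 0 := by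
    have h1 := Sp.aeval hV ((coef_GV hS hG₀).mono (le_clo _)) hw
    rw [hsG] at h1
    exact Sp.unique hV h1 hzero
  have hwD : InD k₁ q w := by
    intro f hf h0
    have h1 := hs f hf h0
    have h2 : ∀ i, Sp V (clo (adj k₁ {a})) ((1 - u) * s i + u * c i) (w i) := by
      intro i
      obtain ⟨n, hn⟩ := hc i
      have h3 := (((hone.sub hV hu).mul hV (hw i)).add hV (hu.mul hV
        (Sp.const hV (show c i ∈ clo (adj k₁ {a}) by rw [hn]; exact intCast_mem _ n))))
      simpa using h3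
    have h4 := Sp.aeval hV (hf.mono hk) h2
    rw [h1] at h4
    exact Sp.unique hV h4 hzero
  exact ⟨hwG, hwD, fun hwS => dil_conj k₁ G S a hS hG₀ q hqG hwG hwS hwD
    (dil_rel k₁ G S a hS hG₀ q hqG hqC hwG hwS hwD)⟩

/-- The dilation for `G = G₀ + a S`. -/
theorem dilV (k₁ : Fl) [Countable k₁] (j : Fin 4) (hj : (j : ℕ) ≤ 1) {d : ℕ}
    (G S : MvPolynomial (Fin 4) ℂ) (hG : G.IsHomogeneous d) (_hSh : S.IsHomogeneous d) (a : ℂ)
    (ha : Transcendental k₁ a) (hS : Coef k₁ S) (hG₀ : Coef k₁ (G - C a * S)) (q : Fin 4 → ℂ)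
    (hq0 : ∀ i < j, q i = 0) (hqj : q j = 1) (hqG : aeval q G = 0) (hqS : aeval q S ≠ 0)
    (hqC : ∀ i, q i ∈ clo (adj k₁ {a})) :
    ∃ u : ℂ, u ∉ clo (adj k₁ {a}) ∧ ∃ s : Fin 4 → ℂ, (∀ i < j, s i = 0) ∧ s j = 1 ∧
      aeval s G = 0 ∧ (∀ i, s i ∈ clo (adj (adj k₁ {a}) {u})) ∧
      (∃ i, s i ∉ clo (adj k₁ {a})) ∧
      (∃ V, IsPl V (clo (adj k₁ {a})) ∧ Sp V (clo (adj k₁ {a})) u 0 ∧
        ∀ i, Sp V (clo (adj k₁ {a})) (s i) (q i)) ∧
      (∀ V, IsPl V (clo (adj k₁ {a})) → Sp V (clo (adj k₁ {a})) u 0 → ∀ w : Fin 4 → ℂ,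
        (∀ i, Sp V (clo (adj k₁ {a})) (s i) (w i)) → aeval w G = 0 ∧ InD k₁ q w ∧
          (aeval w S ≠ 0 → ∃ σ ∈ Fix (adj k₁ {a}), ∀ i, σ (q i) = w i)) ∧
      (∀ V, IsPl V (clo (adj k₁ {a})) → Sp V (clo (adj k₁ {a})) u 1 → ∃ i, s i ∉ V) := by
  obtain ⟨c, hcZ, hcj, hc0, hcD, hcS⟩ := dil_c k₁ j hj S a q hq0 hqj hqS hqC
  obtain ⟨u, s, V, hu, hs0, hsj, hsG, hsD, hsC, hV, hVu, hVs⟩ :=
    dil_us k₁ j G S hG a ha hS hG₀ q hq0 hqj hqG hqS hqC c hcZ hcj hc0 hcD hcS
  have hsS : aeval s S ≠ 0 := by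
    intro h
    have h1 := Sp.aeval hV (hS.mono ((le_adj _ _).trans (le_clo _))) hVs
    rw [h] at h1
    exact hqS (Sp.unique hV h1 (Sp.const hV (zero_mem _)))
  exact ⟨u, hu, s, hs0, hsj, hsG, dil_ii k₁ G S a ha hS hG₀ q hqC hu hcZ hsS hsG hsD, hsC,
    ⟨V, hV, hVu, hVs⟩,
    fun V' hV' hu' w hw => dil_iv k₁ G S a hS hG₀ q hqG hqC hcZ hsG hsD hV' hu' hw,
    fun V' hV' hu' => dil_v k₁ a q hcZ hcD hsD hV' hu'⟩

/-- one letter less: the points of the closure of `q` over `k'` on `S = 0` are over `clo k'` -/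
theorem dropV (k' : Fl) (a : ℂ) (S : MvPolynomial (Fin 4) ℂ) (hS : Coef k' S) (q w : Fin 4 → ℂ)
    (hqC : ∀ i, q i ∈ clo (adj k' {a})) (hqS : aeval q S ≠ 0) (hwS : aeval w S = 0)
    (hw : InD k' q w) : ∀ i, w i ∈ clo k' := by
  intro m
  by_cases hy : q m ∈ clo k'
  · obtain ⟨r, hr0, hr⟩ := mem_clo.1 hy
    have h1 := (inD_iff.1 hw) (Polynomial.aeval (X m) r) (by
      rw [← Polynomial.aeval_algHom_apply, aeval_X]
      exact hr)
    rw [← Polynomial.aeval_algHom_apply, aeval_X] at h1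
    exact mem_clo.2 ⟨r, hr0, h1⟩
  -- `S(q)` is algebraic over `k'(q_m)`
  have hxa : aeval q S ∈ clo (adj k' {a}) :=
    aeval_mem (hS.mono ((le_adj _ _).trans (le_clo _))) hqC
  have hay : a ∈ clo (adj k' {q m}) := clo_exch (hqC m) hy
  have hxC : aeval q S ∈ clo (adj k' {q m}) :=
    clo_adj_le ((le_adj _ _).trans (le_clo _)) (by simpa using hay) hxa
  rw [mem_clo_adj] at hxC
  obtain ⟨R, hR0, hR⟩ := hxC.exists_nonzero_coeff_and_aeval_eq_zero
    (mem_nonZeroDivisors_of_ne_zero hqS)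
  obtain ⟨s₀, hs₀⟩ := coef_iff.1 hS
  have hs₀' : ∀ z : Fin 4 → ℂ, aeval z S = aeval z s₀ := by
    intro z
    rw [← hs₀]
    simp [aeval_def, eval₂_map]
  have hr : ∀ i, ∃ r : Polynomial k', Polynomial.aeval (q m) r = (R.coeff i : ℂ) := by
    intro i
    obtain ⟨b, hb⟩ := R.coeff i
    rw [Algebra.adjoin_singleton_eq_range_aeval] at hb
    exact hb
  choose r hr using hr
  set Q : MvPolynomial (Fin 4) k' :=
    ∑ i ∈ Finset.range (R.natDegree + 1), Polynomial.aeval (X m) (r i) * s₀ ^ i with hQ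
  have key : ∀ z : Fin 4 → ℂ, aeval z Q =
      ∑ i ∈ Finset.range (R.natDegree + 1), Polynomial.aeval (z m) (r i) * aeval z s₀ ^ i := by
    intro z
    rw [hQ, map_sum]
    refine Finset.sum_congr rfl fun i _ => ?_
    rw [map_mul, map_pow, ← Polynomial.aeval_algHom_apply, aeval_X]
  have h1 : aeval q Q = 0 := by
    rw [key q]
    rw [Polynomial.aeval_eq_sum_range] at hR
    rw [← hR]
    refine Finset.sum_congr rfl fun i _ => ?_
    rw [hr, hs₀']
    rfl
  have h2 := (inD_iff.1 hw) Q h1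
  rw [hs₀'] at hwS
  rw [key w, Finset.sum_range_succ', hwS] at h2
  simp at h2
  refine mem_clo.2 ⟨r 0, ?_, h2⟩
  rintro h0
  apply hR0
  have h3 := hr 0
  rw [h0, map_zero] at h3
  exact Subtype.ext h3.symm

end Pool.Agent.VGS.V
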