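import Pool.Agent.VGV.S1V
import Pool.Agent.VGH.Fin

/-! Module FinV: the system and the main theorem (port of `VGH/Fin`). -/

set_option autoImplicit false

open scoped LinearAlgebra.Projectivization
open MvPolynomial

namespace Pool.Agent.VGS.V

open Pool.Agent.Chow0 (IsChowForm IsLink cyc Z0 ratTriv CH0)
open Pool.Agent.LowDeg (surf IsSmoothForm EffCorr IsGenericPoint ActsByScalar)

/-- A member of the linear system has its coefficients in `k (a)`. -/
theorem coef_sumV {ι : Type} [Fintype ι] {g : ι → MvPolynomial (Fin 4) ℂ} {a : ι → ℂ} {k : Fl}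
    (hgk : ∀ i, Coef k (g i)) {F : MvPolynomial (Fin 4) ℂ} (hF : F = ∑ i, C (a i) * g i) :
    Coef (adj k (Set.range a)) F := by
  intro m
  rw [hF, coeff_sum]
  refine sum_mem fun i _ => ?_
  rw [coeff_C_mul]
  exact mul_mem (subset_adj _ _ ⟨i, rfl⟩) (le_adj _ _ (hgk i m))

/-- The system of the surface `F = 0`, `F = ∑ a_i g_i`, with the `a_i` independent over `k`. -/
noncomputable def sysV {ι : Type} [Fintype ι] {g : ι → MvPolynomial (Fin 4) ℂ} {d : ℕ} {a : ι → ℂ}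
    (hd : 4 ≤ d) (hg : ∀ i, (g i).IsHomogeneous d) (k : Fl) [Countable k]
    (hgk : ∀ i, Coef k (g i)) (hbpf : ∀ z : Fin 4 → ℂ, z ≠ 0 → ∃ i, aeval z (g i) ≠ 0)
    {W : MvPolynomial (Fin 4) ℂ} (hW : W ≠ 0) (hsep : ∀ z, aeval z W ≠ 0 → Sep g (d - 4) z)
    (ha : AlgebraicIndependent k a) {F : MvPolynomial (Fin 4) ℂ} (hFg : F = ∑ i, C (a i) * g i)
    (hF : IsSmoothForm F d) : Sys where
  P := PP
  act := act
  act_one := act_one
  act_mul := act_mul
  X := surf F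
  K := adj k (Set.range a)
  cK := inferInstance
  Gen := fun L => Gen L F
  rat := ratQ F
  TZ := fun L => TZ L F d
  act_X := fun σ hσ p hp => (act_mem_surf hF.hom (coef_sumV hgk hFg) hσ).2 hp
  gen_X := fun L p hp => hp.1
  gen_anti := fun L L' h => Gen_anti h F
  act_gen := fun L hL σ hσ p hp => (act_mem_Gen hF.hom ((coef_sumV hgk hFg).mono hL) hσ).2 hp
  conj := fun p hp q hq => by
    have h := gen_clo hd hF (adj k (Set.range a)) (coef_sumV hgk hFg)
    exact gen_conj hd hF (clo (adj k (Set.range a))) ((coef_sumV hgk hFg).mono (le_clo _))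
      (by rwa [h]) (by rwa [h])
  rat_act := fun σ hσ z hz => actC_ratQ hF.hom (coef_sumV hgk hFg) hσ hz
  rat_deg := fun z hz => degQ_ratQ hz
  move := fun L _ hL x hx => moveQ hd hF L ((coef_sumV hgk hFg).mono hL) hx
  tz_X := fun L z hz => hz.1
  tz_mono := fun L L' _ h => tz_mono h
  tz_act := fun L hL σ hσ z hz => tz_act hd hF ((coef_sumV hgk hFg).mono hL) hσ hz
  s1t := fun n t ht α hα he => s1tV hd hg hgk hbpf hW hsep ha hFg t ht α hα he
  mu := fun L _ hL => mu_inst hd hF (adj k (Set.range a)) (coef_sumV hgk hFg) L hL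

/-- nilpotence for the Chow group with rational coefficients -/
theorem nilV {ι : Type} [Fintype ι] {g : ι → MvPolynomial (Fin 4) ℂ} {d : ℕ} {a : ι → ℂ}
    (hd : 4 ≤ d) (hg : ∀ i, (g i).IsHomogeneous d) (k : Fl) [Countable k]
    (hgk : ∀ i, Coef k (g i)) (hbpf : ∀ z : Fin 4 → ℂ, z ≠ 0 → ∃ i, aeval z (g i) ≠ 0)
    {W : MvPolynomial (Fin 4) ℂ} (hW : W ≠ 0) (hsep : ∀ z, aeval z W ≠ 0 → Sep g (d - 4) z)
    (ha : AlgebraicIndependent k a) {F : MvPolynomial (Fin 4) ℂ} (hFg : F = ∑ i, C (a i) * g i)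
    (hF : IsSmoothForm F d) (T : Finset ℂ) (hT : ∀ x ∈ T, x ∈ clo (adj k (Set.range a))) :
    ∃ N : ℕ, 0 < N ∧ ∀ x : Fin N → Module.End ℚ (Cy ⧸ ratQ F),
      (∀ i, ∃ α : PP → Cy, (∀ p ∈ Gen (adj k (Set.range a)) F,
          α p ∈ TZ (adj k (Set.range a)) F d) ∧
        (∀ σ ∈ Fix (adj (adj k (Set.range a)) T), ∀ p ∈ Gen (adj k (Set.range a)) F,
          α (act σ p) = actC σ (α p)) ∧
        ∀ p ∈ Gen (adj k (Set.range a)) F,
          x i ((ratQ F).mkQ (Finsupp.single p (1 : ℚ))) = (ratQ F).mkQ (α p)) →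
      ∀ p ∈ surf F, ∀ q ∈ surf F, (List.ofFn x).prod
        ((ratQ F).mkQ (Finsupp.single p (1 : ℚ)) - (ratQ F).mkQ (Finsupp.single q (1 : ℚ))) = 0 := by
  obtain ⟨N, hN0, hN⟩ := Sys.nil_fin (sysV hd hg k hgk hbpf hW hsep ha hFg hF) T hT
  exact ⟨N, hN0, fun x hx p hp q hq => hN x hx _ (Submodule.subset_span ⟨p, hp, q, hq, rfl⟩)⟩

/-- The main theorem, for pairs of points. -/
theorem mainV' {ι : Type} [Fintype ι] (g : ι → MvPolynomial (Fin 4) ℂ) (d : ℕ) (hd : 4 ≤ d)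
    (hg : ∀ i, (g i).IsHomogeneous d)
    (hbpf : ∀ z : Fin 4 → ℂ, z ≠ 0 → ∃ i, aeval z (g i) ≠ 0)
    (W : MvPolynomial (Fin 4) ℂ) (hW : W ≠ 0) (hsep : ∀ z, aeval z W ≠ 0 → Sep g (d - 4) z)
    (a : ι → ℂ) (ha : AlgebraicIndependent (bfd g) a) (F : MvPolynomial (Fin 4) ℂ)
    (hF : F = ∑ i, C (a i) * g i)
    (Ω : Type) [Field Ω] [Algebra ℂ Ω] [IsAlgClosed Ω] (ξ : Fin 4 → Ω)
    (hξ : IsGenericPoint F ξ) (n : ℕ) (w w' : Fin n → ℕ) (Γ : ∀ i, EffCorr F ξ (w i))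
    (Γ' : ∀ i, EffCorr F ξ (w' i)) (hm : ∀ i, ActsByScalar F (d - 4) (Γ i) (Γ' i) 0) :
    ∃ (K : Fl) (_ : Countable K) (_ : Coef K F) (N M : ℕ)
      (D : ℕ → MvPolynomial (Fin 4) ℂ), (∀ p : surf F, p ∈ veryGen F D ↔ p.1 ∈ Gen K F) ∧
      0 < M ∧
      (∀ j, (∃ e, (D j).IsHomogeneous e) ∧ ¬ F ∣ D j) ∧
      (∀ i, ∀ p ∈ veryGen F D, ∃ s s' : Multiset (surf F),
        IsChowForm (surf F) ((Γ i).at p.1.rep) s ∧ IsChowForm (surf F) ((Γ' i).at p.1.rep) s') ∧
      ∀ φ : Fin n → AddMonoid.End (CH0 (surf F)),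
        (∀ i, ActsOnCH (Γ i) (Γ' i) (veryGen F D) 0 1 (φ i)) →
        ∀ word : Fin N → Fin n, ∀ p ∈ veryGen F D, ∀ q ∈ veryGen F D,
          M • (List.ofFn fun j => φ (word j)).prod
            (mkC F (FreeAbelianGroup.of p - FreeAbelianGroup.of q)) = 0 := by
  classical
  have hsm : IsSmoothForm F d := by
    rw [hF]
    exact smoothV (by omega) hg (fun i => coef_bfd i) hbpf ha
  obtain ⟨m, hm0⟩ : ∃ m : Fin n → ℂ, m = fun _ => 0 := ⟨_, rfl⟩
  -- the ground field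
  set S : Finset ℂ := Finset.univ.biUnion fun i => cfs (Γ i) ∪ cfs (Γ' i) with hS
  obtain ⟨k, hk, hkc, hgk', hindk, hSk⟩ := exists_groundV (g := g) ha S
  have hgk : ∀ i, Coef k (g i) := fun i => (coef_bfd i).mono hgk'
  have hKc : Countable (adj k (Set.range a)) := countable_adj k _
  have hFK : Coef (adj k (Set.range a)) F := coef_sumV hgk hF
  have hFK' : Coef (clo (adj k (Set.range a))) F := hFK.mono (le_clo _)
  have hSK : ∀ x ∈ S, x ∈ clo (adj k (Set.range a)) := hSk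
  have hKK' : adj k (Set.range a) ≤ adj (adj k (Set.range a)) S := le_adj _ _
  have hK'c : adj (adj k (Set.range a)) S ≤ clo (adj k (Set.range a)) := adj_le (le_clo _) fun x hx => hSK x hx
  have hcf : ∀ i, ∀ x ∈ cfs (Γ i), x ∈ S := fun i x hx =>
    Finset.mem_biUnion.2 ⟨i, Finset.mem_univ i, Finset.mem_union_left _ hx⟩
  have hcf' : ∀ i, ∀ x ∈ cfs (Γ' i), x ∈ S := fun i x hx =>
    Finset.mem_biUnion.2 ⟨i, Finset.mem_univ i, Finset.mem_union_right _ hx⟩
  have hcK : ∀ i, CoefE (adj (adj k (Set.range a)) S) (Γ i) := fun i =>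
    coefE_of _ fun x hx => subset_adj _ _ (hcf i x hx)
  have hcK' : ∀ i, CoefE (adj (adj k (Set.range a)) S) (Γ' i) := fun i =>
    coefE_of _ fun x hx => subset_adj _ _ (hcf' i x hx)
  have hT := fun i => effT_isT2 hd hsm hξ (adj k (Set.range a)) (adj (adj k (Set.range a)) S) hFK hKK' hK'c (Γ i) (hcK i)
  have hT' := fun i => effT_isT2 hd hsm hξ (adj k (Set.range a)) (adj (adj k (Set.range a)) S) hFK hKK' hK'c (Γ' i)
    (hcK' i)
  have htau : ∀ i, ∀ y ∈ Gen (adj k (Set.range a)) F, ∀ D₁ D₂ : Derivation ℤ ℂ ℂ, Kills (adj k (Set.range a)) D₁ →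
      Kills (adj k (Set.range a)) D₂ → ∀ f : MvPolynomial (Fin 4) ℂ, f.IsHomogeneous (d - 4) →
        tauC F D₁ D₂ f (effT (Γ i) y - effT (Γ' i) y) = m i * tau F D₁ D₂ f y := fun i =>
    effT_tau hd hsm hξ (adj k (Set.range a)) hFK (Γ i) (Γ' i) (fun m' => (hcK i m').mono hK'c)
      (fun m' => (hcK' i m').mono hK'c) (by rw [hm0]; exact hm i)
  -- the scalars
  obtain ⟨sa, hsa⟩ : ∃ sa : Fin n → ℤ, sa = fun _ => 0 := ⟨_, rfl⟩
  obtain ⟨sb, hsb⟩ : ∃ sb : Fin n → ℤ, sb = fun _ => 1 := ⟨_, rfl⟩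
  have hbm : ∀ i, (sb i : ℂ) * m i = sa i := fun i => by
    rw [hsa, hsb, hm0]
    simp
  obtain ⟨D, hD, hDG⟩ := exists_enum hd hsm.hom (adj k (Set.range a))
  -- nilpotence with rational coefficients
  obtain ⟨N, hN0, hN⟩ := nilV hd hg k hgk hbpf hW hsep hindk hF hsm S hSK
  have hchs : ∀ i, ∀ p : surf F, p.1 ∈ Gen (adj k (Set.range a)) F →
      IsChowForm (surf F) ((Γ i).at p.1.rep) (chs (Γ i) p.1) := fun i p hp =>
    chs_spec _ _ ((hT i).1 p.1 hp)
  have hchs' : ∀ i, ∀ p : surf F, p.1 ∈ Gen (adj k (Set.range a)) F →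
      IsChowForm (surf F) ((Γ' i).at p.1.rep) (chs (Γ' i) p.1) := fun i p hp =>
    chs_spec _ _ ((hT' i).1 p.1 hp)
  -- the statement for one family of endomorphisms
  have key : ∀ φ : Fin n → AddMonoid.End (CH0 (surf F)),
      (∀ i, ∀ p : surf F, p.1 ∈ Gen (adj k (Set.range a)) F → φ i (mkC F (FreeAbelianGroup.of p)) =
        mkC F (phH (Γ i) (Γ' i) (sa i) (sb i) (FreeAbelianGroup.of p))) →
      ∀ word : Fin N → Fin n, ∃ M : ℕ, 0 < M ∧ ∀ p q : surf F, p.1 ∈ Gen (adj k (Set.range a)) F →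
        q.1 ∈ Gen (adj k (Set.range a)) F → M • ((List.ofFn word).map φ).prod
          (mkC F (FreeAbelianGroup.of p - FreeAbelianGroup.of q)) = 0 := by
    intro φ hφ word
    refine exists_MH hd hsm (adj k (Set.range a)) hFK φ hFK' ?_ (List.ofFn word) ?_
    · intro σ hσ i c
      have hσ' : σ ∈ Fix (adj (adj k (Set.range a)) S) := Fix_mono hK'c hσ
      refine DFunLike.congr_fun (hom_ext_gen hd hsm (adj k (Set.range a)) hFK
        ((φ i : CH0 (surf F) →+ CH0 (surf F)).comp (actH hsm.hom hFK' hσ))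
        ((actH hsm.hom hFK' hσ).comp (φ i : CH0 (surf F) →+ CH0 (surf F))) fun p hp => ?_) c
      change φ i (actH hsm.hom hFK' hσ (mkC F (FreeAbelianGroup.of p))) =
        actH hsm.hom hFK' hσ (φ i (mkC F (FreeAbelianGroup.of p)))
      have hp' : (actS hsm.hom hFK' hσ p).1 ∈ Gen (adj k (Set.range a)) F :=
        (act_mem_Gen hsm.hom hFK (Fix_mono (le_clo _) hσ)).2 hp
      rw [hφ i p hp, actH_mkC, actH_mkC, actZ_of, hφ i _ hp']
      congr 1
      apply jz_injective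
      rw [jz_actZ, jz_phH_of, jz_phH_of]
      change sb i • (effT (Γ i) (act σ p.1) - effT (Γ' i) (act σ p.1)) -
        sa i • (Finsupp.single (act σ p.1) (1 : ℚ) : Cy) = _
      rw [(hT i).2.2 σ hσ' p.1 hp, (hT' i).2.2 σ hσ' p.1 hp, map_sub, map_zsmul, map_zsmul,
        map_sub, actC_single]
    · intro p q hp hq
      have h1 := hN (fun j => qEnd (φ (word j))) (fun j => by
        refine ⟨fun p => sb (word j) • (effT (Γ (word j)) p - effT (Γ' (word j)) p) -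
          sa (word j) • (Finsupp.single p (1 : ℚ) : Cy), fun p hp => ?_, fun σ hσ p hp => ?_,
          fun p hp => ?_⟩
        · refine mem_TZ.2 ⟨support_zsmul_sub ((hT (word j)).2.1 p hp) ((hT' (word j)).2.1 p hp)
            (fun q hq => ?_) _ _, fun D₁ D₂ h1 h2 f hf => ?_⟩
          · rw [Finset.mem_singleton.1 (Finsupp.support_single_subset hq)]
            exact hp.1
          · rw [map_sub, map_zsmul, map_zsmul, htau (word j) p hp D₁ D₂ h1 h2 f hf]
            unfold tauC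
            rw [Finsupp.linearCombination_single, one_smul, zsmul_eq_mul, zsmul_eq_mul,
              ← mul_assoc, hbm, sub_self]
        · change sb (word j) • (effT (Γ (word j)) (act σ p) - effT (Γ' (word j)) (act σ p)) -
            sa (word j) • (Finsupp.single (act σ p) (1 : ℚ) : Cy) = actC σ _
          rw [(hT (word j)).2.2 σ hσ p hp, (hT' (word j)).2.2 σ hσ p hp, map_sub, map_zsmul,
            map_zsmul, map_sub, actC_single]
        · have h3 := qEnd_single (φ (word j)) (⟨p, hp.1⟩ : surf F)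
          rw [hφ (word j) ⟨p, hp.1⟩ hp, iota_phH] at h3
          exact h3) p.1 p.2 q.1 q.2
      rw [← qEnd_prod, iota_mkC, map_sub, map_sub, jz_of, jz_of]
      have e1 : (List.ofFn fun j => qEnd (φ (word j))) =
          (List.ofFn word).map fun i => qEnd (φ i) := by
        rw [List.map_ofFn]
        rfl
      rw [e1] at h1
      exact h1
  -- all families of endomorphisms are the same
  have hex : ∃ Mw : (Fin N → Fin n) → ℕ, (∀ word, 0 < Mw word) ∧
      ∀ φ : Fin n → AddMonoid.End (CH0 (surf F)),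
        (∀ i, ∀ p : surf F, p.1 ∈ Gen (adj k (Set.range a)) F → φ i (mkC F (FreeAbelianGroup.of p)) =
          mkC F (phH (Γ i) (Γ' i) (sa i) (sb i) (FreeAbelianGroup.of p))) →
        ∀ word : Fin N → Fin n, ∀ p q : surf F, p.1 ∈ Gen (adj k (Set.range a)) F →
          q.1 ∈ Gen (adj k (Set.range a)) F → Mw word • ((List.ofFn word).map φ).prod
            (mkC F (FreeAbelianGroup.of p - FreeAbelianGroup.of q)) = 0 := by
    by_cases hφ0 : ∃ φ : Fin n → AddMonoid.End (CH0 (surf F)),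
        ∀ i, ∀ p : surf F, p.1 ∈ Gen (adj k (Set.range a)) F → φ i (mkC F (FreeAbelianGroup.of p)) =
          mkC F (phH (Γ i) (Γ' i) (sa i) (sb i) (FreeAbelianGroup.of p))
    · obtain ⟨φ0, hφ0⟩ := hφ0
      choose Mw hMw0 hMw1 using key φ0 hφ0
      refine ⟨Mw, hMw0, fun φ hφ => ?_⟩
      have h1 : φ = φ0 := funext fun i => hom_ext_gen hd hsm (adj k (Set.range a)) hFK
        (φ i : CH0 (surf F) →+ CH0 (surf F)) (φ0 i) fun p hp => by
          exact (hφ i p hp).trans (hφ0 i p hp).symm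
      rw [h1]
      exact hMw1
    · exact ⟨fun _ => 1, fun _ => one_pos, fun φ hφ => absurd ⟨φ, hφ⟩ hφ0⟩
  obtain ⟨Mw, hMw0, hMw1⟩ := hex
  refine ⟨adj k (Set.range a), hKc, hFK, N, ∏ word, Mw word, D, hDG,
    Finset.prod_pos fun word _ => hMw0 word, hD, ?_, ?_⟩
  · intro i p hp
    have hp' := (hDG p).1 hp
    exact ⟨chs (Γ i) p.1, chs (Γ' i) p.1, hchs i p hp', hchs' i p hp'⟩
  · intro φ hφ' word p hp q hq
    have hφ : ∀ i, ActsOnCH (Γ i) (Γ' i) (veryGen F D) (sa i) (sb i) (φ i) := fun i => by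
      rw [hsa, hsb]
      exact hφ' i
    have hp' := (hDG p).1 hp
    have hq' := (hDG q).1 hq
    have e1 : (List.ofFn fun j => φ (word j)) = (List.ofFn word).map φ := by
      rw [List.map_ofFn]
      rfl
    rw [e1]
    obtain ⟨c, hc⟩ : Mw word ∣ ∏ word, Mw word := Finset.dvd_prod_of_mem _ (Finset.mem_univ word)
    rw [hc, mul_comm, mul_smul, hMw1 φ (fun i x hx => (hφ i).phH ((hDG x).2 hx) (hchs i x hx)
      (hchs' i x hx)) word p q hp' hq', smul_zero]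

/-- The main theorem for the very general members of a linear system. -/
theorem mainV {ι : Type} [Fintype ι] (g : ι → MvPolynomial (Fin 4) ℂ) (d : ℕ) (hd : 4 ≤ d)
    (hg : ∀ i, (g i).IsHomogeneous d)
    (hbpf : ∀ z : Fin 4 → ℂ, z ≠ 0 → ∃ i, aeval z (g i) ≠ 0)
    (W : MvPolynomial (Fin 4) ℂ) (hW : W ≠ 0) (hsep : ∀ z, aeval z W ≠ 0 → Sep g (d - 4) z)
    (a : ι → ℂ) (ha : AlgebraicIndependent (bfd g) a) (F : MvPolynomial (Fin 4) ℂ)
    (hF : F = ∑ i, C (a i) * g i)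
    (Ω : Type) [Field Ω] [Algebra ℂ Ω] [IsAlgClosed Ω] (ξ : Fin 4 → Ω)
    (hξ : IsGenericPoint F ξ) (n : ℕ) (w w' : Fin n → ℕ) (Γ : ∀ i, EffCorr F ξ (w i))
    (Γ' : ∀ i, EffCorr F ξ (w' i)) (hm : ∀ i, ActsByScalar F (d - 4) (Γ i) (Γ' i) 0) :
    ∃ (N M : ℕ) (D : ℕ → MvPolynomial (Fin 4) ℂ), 0 < M ∧
      (∀ j, (∃ e, (D j).IsHomogeneous e) ∧ ¬ F ∣ D j) ∧
      (∀ i, ∀ p ∈ veryGen F D, ∃ s s' : Multiset (surf F),
        IsChowForm (surf F) ((Γ i).at p.1.rep) s ∧ IsChowForm (surf F) ((Γ' i).at p.1.rep) s') ∧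
      ∀ φ : Fin n → AddMonoid.End (CH0 (surf F)),
        (∀ i, H.Induces (Γ i) (Γ' i) (veryGen F D) (φ i)) →
        ∀ word : Fin N → Fin n, ∀ z : Z0 (surf F), Pool.Agent.Chow0.deg z = 0 →
          M • (List.ofFn fun j => φ (word j)).prod (QuotientAddGroup.mk z) = 0 := by
  have hsm : IsSmoothForm F d := by
    rw [hF]
    exact smoothV (by omega) hg (fun i => coef_bfd i) hbpf ha
  obtain ⟨K, hK, hKF, N, M, D, hDG, hM, hD, hch, hφ⟩ :=
    mainV' g d hd hg hbpf W hW hsep a ha F hF Ω ξ hξ n w w' Γ Γ' hm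
  refine ⟨N, M, D, hM, hD, hch, fun φ hφ'' word z hz => ?_⟩
  have hφ' : ∀ i, ActsOnCH (Γ i) (Γ' i) (veryGen F D) 0 1 (φ i) := fun i p hp s s' hs' hs'' => by
    rw [hφ'' i p hp s s' hs' hs'', one_smul, zero_smul, sub_zero]
  obtain ⟨y, hy, hzy⟩ := move_deg (V := veryGen F D) (fun x => by
    obtain ⟨s, t, hs, ht, h⟩ := exists_move hd hsm K hKF x
    exact ⟨s, t, fun p hp => (hDG p).2 (hs p hp), fun p hp => (hDG p).2 (ht p hp), h⟩) hz
  have e1 : (QuotientAddGroup.mk z : CH0 (surf F)) = mkC F y := by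
    have h1 := mkC_eq_zero.2 hzy
    rw [map_sub] at h1
    exact sub_eq_zero.1 h1
  rw [e1]
  refine AddSubgroup.closure_induction (p := fun y _ =>
    M • (List.ofFn fun j => φ (word j)).prod (mkC F y) = 0) ?_ ?_ ?_ ?_ hy
  · rintro y ⟨p, hp, q, hq, rfl⟩
    exact hφ φ hφ' word p hp q hq
  · rw [map_zero, map_zero, smul_zero]
  · intro x y _ _ hx hy
    rw [map_add, map_add, smul_add, hx, hy, add_zero]
  · intro x _ hx
    rw [map_neg, map_neg, smul_neg, hx, neg_zero]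

end Pool.Agent.VGS.V
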