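import Pool.Agent.VGV.Defs

/-! Module Ground: smoothness and the ground field. -/

set_option autoImplicit false

open scoped LinearAlgebra.Projectivization
open MvPolynomial

namespace Pool.Agent.VGS.V

open Pool.Agent.LowDeg (surf IsSmoothForm)

variable {ι : Type} [Fintype ι] {g : ι → MvPolynomial (Fin 4) ℂ} {d : ℕ} {a : ι → ℂ}

/-- derivations over `L` with given values on an algebraically independent family -/
private theorem exists_kills' {L : Fl} (ha : AlgebraicIndependent L a) (f : ι → ℂ) :
    ∃ D : Derivation ℤ ℂ ℂ, Kills L D ∧ ∀ i, D (a i) = f i := by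
  classical
  have hinj : Function.Injective a := ha.injective
  have hs : AlgebraicIndepOn L id (Set.range a) := ha.to_subtype_range
  obtain ⟨t, hst, ht⟩ := exists_isTranscendenceBasis_superset hs
  obtain ⟨D, hD⟩ := tau_exists_der ht (fun w => if h : ∃ i, a i = (w : ℂ) then f h.choose else 0)
  refine ⟨D.restrictScalars ℤ, fun c hc => ?_, fun i => ?_⟩
  · exact D.map_algebraMap ⟨c, hc⟩
  · have h1 := hD ⟨a i, hst ⟨i, rfl⟩⟩
    have h2 : ∃ j, a j = a i := ⟨i, rfl⟩
    rw [dif_pos h2, hinj h2.choose_spec] at h1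
    exact h1

/-- (Bertini by derivations: at a singular point `z` of `F` every derivation `D` of `ℂ` over `L` has
`0 = D (F z) = ∑ D (a i) g i (z) + ∑ D (z l) ∂_l F (z) = ∑ D (a i) g i (z)`; take
`D (a i) = δ_{i i₀}`) -/
theorem smoothV (hd : 1 ≤ d) (hg : ∀ i, (g i).IsHomogeneous d) {L : Fl} (hgL : ∀ i, Coef L (g i))
    (hbpf : ∀ z : Fin 4 → ℂ, z ≠ 0 → ∃ i, aeval z (g i) ≠ 0) (ha : AlgebraicIndependent L a) :
    IsSmoothForm (∑ i, C (a i) * g i) d := by
  classical
  refine ⟨IsHomogeneous.sum _ _ _ fun i _ => by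
    simpa using (isHomogeneous_C (Fin 4) (a i)).mul (hg i), fun z hz h0 => ?_⟩
  by_contra hcon
  push Not at hcon
  obtain ⟨i₀, hi₀⟩ := hbpf z hz
  obtain ⟨D, hDL, hD⟩ := exists_kills' ha (fun i => if i = i₀ then 1 else 0)
  have h1 : ∑ i, a i * aeval z (g i) = 0 := by
    rw [← h0, map_sum]
    refine Finset.sum_congr rfl fun i _ => ?_
    rw [map_mul, aeval_C]
    rfl
  have h2 : ∀ l, ∑ i, a i * aeval z (pderiv l (g i)) = 0 := by
    intro l
    rw [← hcon l, map_sum, map_sum]
    refine Finset.sum_congr rfl fun i _ => ?_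
    rw [pderiv_C_mul, map_mul, aeval_C]
    rfl
  have h3 : D (∑ i, a i * aeval z (g i)) = aeval z (g i₀) := by
    rw [map_sum]
    have h4 : ∀ i, D (a i * aeval z (g i)) =
        (∑ l, D (z l) * (a i * aeval z (pderiv l (g i)))) +
          (if i = i₀ then aeval z (g i) else 0) := by
      intro i
      rw [Derivation.leibniz, hD, der_aeval (hgL i) hDL, smul_eq_mul, smul_eq_mul, dFc,
        Finset.mul_sum]
      congr 1
      · refine Finset.sum_congr rfl fun l _ => by ring
      · split_ifs <;> simp
    rw [Finset.sum_congr rfl fun i _ => h4 i, Finset.sum_add_distrib, Finset.sum_comm]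
    have h5 : ∀ l, ∑ i, D (z l) * (a i * aeval z (pderiv l (g i))) = 0 := by
      intro l
      rw [← Finset.mul_sum, h2 l, mul_zero]
    rw [Finset.sum_congr rfl fun l _ => h5 l, Finset.sum_const_zero, zero_add,
      Finset.sum_ite_eq' Finset.univ i₀, if_pos (Finset.mem_univ _)]
  rw [h1, map_zero] at h3
  exact hi₀ h3.symm

theorem coef_bfd (i : ι) : Coef (bfd g) (g i) := fun m =>
  IntermediateField.subset_adjoin ℚ _ ⟨i, m, rfl⟩

private theorem countable_bfd : Countable (bfd g) := by
  have h2 : {x | ∃ i m, x = coeff m (g i)} =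
      Set.range (fun p : ι × (Fin 4 →₀ ℕ) => coeff p.2 (g p.1)) := by
    ext x
    constructor
    · rintro ⟨i, m, rfl⟩
      exact ⟨(i, m), rfl⟩
    · rintro ⟨⟨i, m⟩, rfl⟩
      exact ⟨i, m, rfl⟩
  have hι : Countable ι := Finite.to_countable
  have h3 : Countable (Set.range (fun p : ι × (Fin 4 →₀ ℕ) => coeff p.2 (g p.1))) :=
    (Set.countable_range _).to_subtype
  have h4 : Countable (⊥ : Fl) := by
    have h1 : Function.Surjective (algebraMap ℚ (⊥ : Fl)) := by
      rintro ⟨x, hx⟩
      rw [IntermediateField.mem_bot] at hx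
      obtain ⟨q, rfl⟩ := hx
      exact ⟨q, rfl⟩
    exact h1.countable
  have h5 : bfd g = adj ⊥ (Set.range (fun p : ι × (Fin 4 →₀ ℕ) => coeff p.2 (g p.1))) := by
    rw [bfd, h2, adj, bot_sup_eq]
  rw [h5]
  infer_instance

/-- (port of `VGS.exists_ground`; the start is `clo (bfd g)`) -/
theorem exists_groundV (ha : AlgebraicIndependent (bfd g) a) (S : Finset ℂ) :
    ∃ k : Fl, Countable k ∧ clo k = k ∧ bfd g ≤ k ∧ AlgebraicIndependent k a ∧
      ∀ x ∈ S, x ∈ clo (adj k (Set.range a)) := by
  classical
  induction S using Finset.induction_on with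
  | empty =>
    have : Countable (bfd g) := countable_bfd
    refine ⟨clo (bfd g), inferInstance, clo_clo _, le_clo _, ?_,
      fun x hx => absurd hx (Finset.notMem_empty x)⟩
    rw [ai_clo]
    exact ha
  | insert x S _ ih =>
    obtain ⟨k, hk, hkc, hkb, hki, hkS⟩ := ih
    by_cases hx : x ∈ clo (adj k (Set.range a))
    · refine ⟨k, hk, hkc, hkb, hki, fun z hz => ?_⟩
      rw [Finset.mem_insert] at hz
      rcases hz with rfl | hz
      · exact hx
      · exact hkS z hz
    · refine ⟨clo (adj k {x}), inferInstance, clo_clo _,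
        hkb.trans ((le_adj k {x}).trans (le_clo _)), ?_, fun z hz => ?_⟩
      · rw [ai_clo]
        have h1 : AlgebraicIndependent (adj k (Set.range a)) (fun _ : Unit => x) := by
          rw [algebraicIndependent_unique_type_iff]
          rw [mem_clo] at hx
          exact hx
        have h2 : AlgebraicIndependent k (Sum.elim a (fun _ : Unit => x)) := ai_sum.mpr ⟨hki, h1⟩
        have h3 : AlgebraicIndependent k (Sum.elim (fun _ : Unit => x) a) := by
          have h4 := (algebraicIndependent_equiv' (Equiv.sumComm Unit ι)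
            (f := Sum.elim a (fun _ : Unit => x)) (g := Sum.elim (fun _ : Unit => x) a) (by
              ext i
              cases i <;> rfl)).mpr h2
          exact h4
        have h5 := (ai_sum.mp h3).2
        rwa [Set.range_const] at h5
      · rw [Finset.mem_insert] at hz
        rcases hz with rfl | hz
        · exact le_clo _ (le_adj _ _ (le_clo _ (subset_adj _ _ rfl)))
        · refine clo_mono (adj_le ?_ (subset_adj _ _)) (hkS z hz)
          exact ((le_adj k {x}).trans (le_clo _)).trans (le_adj _ _)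

theorem ind_adjV {k : Fl} (ha : AlgebraicIndependent k a) {n : ℕ} {t : Fin n → ℂ}
    (ht : AlgebraicIndependent (adj k (Set.range a)) t) :
    AlgebraicIndependent (adj k (Set.range t)) a := by
  have h1 := ai_sum.2 ⟨ha, ht⟩
  have h2 : AlgebraicIndependent k (Sum.elim t a) := by
    refine (algebraicIndependent_equiv' (Equiv.sumComm (Fin n) _) (f := Sum.elim a t) ?_).2 h1
    ext (i | i) <;> rfl
  exact (ai_sum.1 h2).2

end Pool.Agent.VGS.V
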