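import Pool.Agent.VGV.Defs

/-! Module P2: the points of the surface on the line `x₀ = x₁ = 0` are conjugate. -/

set_option autoImplicit false

open scoped LinearAlgebra.Projectivization
open MvPolynomial

namespace Pool.Agent.VGS.V

open Pool.Agent.LowDeg (surf IsSmoothForm)

variable {ι : Type} [Fintype ι] {κ : Fl} {s : ι → MvPolynomial (Fin 4) ℂ} {a : ι → ℂ}
  {F : MvPolynomial (Fin 4) ℂ} {d : ℕ}

/-! ### auxiliary facts -/

theorem p2_ne (w : ℂ) : (![0, 0, 1, w] : Fin 4 → ℂ) ≠ 0 := by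
  intro h
  have := congrFun h 2
  simp at this

theorem p2_sum (hR : SetR κ s a F d) (z : Fin 4 → ℂ) :
    aeval z F = ∑ l, a l * aeval z (s l) := by
  rw [hR.sum, map_sum]
  refine Finset.sum_congr rfl fun l _ => ?_
  rw [map_mul, aeval_C]
  rfl

/-- a point with `s_i ≠ 0` is not over the closure of the field of the other letters -/
theorem p2_not (hR : SetR κ s a F d) {i : ι} {z : Fin 4 → ℂ} (hz : aeval z F = 0)
    (hs : aeval z (s i) ≠ 0) : ¬ ∀ j, z j ∈ clo (adj κ (a '' {i}ᶜ)) := by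
  classical
  intro hmem
  have h1 := hR.ind.transcendental_adjoin (s := {i}ᶜ) (i := i) (by simp)
  have h2 : a i ∉ clo (adj κ (a '' {i}ᶜ)) := by
    rw [mem_clo_adj]
    exact h1
  apply h2
  rw [p2_sum hR, ← Finset.add_sum_erase _ _ (Finset.mem_univ i)] at hz
  have h3 : a i = -(∑ l ∈ Finset.univ.erase i, a l * aeval z (s l)) / aeval z (s i) := by
    rw [eq_div_iff hs]
    linear_combination hz
  have h4 : ∀ l, aeval z (s l) ∈ clo (adj κ (a '' {i}ᶜ)) := fun l =>
    aeval_mem ((hR.coef l).mono ((le_adj _ _).trans (le_clo _))) hmem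
  rw [h3]
  refine div_mem (neg_mem (sum_mem fun l hl => mul_mem ?_ (h4 l))) (h4 i)
  refine le_clo _ (subset_adj _ _ ⟨l, ?_, rfl⟩)
  rw [Finset.mem_erase] at hl
  exact hl.1

/-- change of the representative -/
theorem p2_rep (hR : SetR κ s a F d) {q : PP} (hq : q ∈ surf F) (h0 : q.rep 0 = 0)
    {z : Fin 4 → ℂ} {c : ℂ} (hc : ∀ j, q.rep j = c * z j) :
    aeval z F = 0 ∧ ∃ i, aeval z (s i) ≠ 0 := by
  have hc0 : c ≠ 0 := by
    rintro rfl
    apply q.rep_nonzero
    funext j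
    rw [hc j, zero_mul]
    rfl
  have h1 := aeval_scale hR.smooth.1 hc
  have hq' : aeval q.rep F = 0 := hq
  rw [hq'] at h1
  refine ⟨?_, ?_⟩
  · rcases mul_eq_zero.1 h1.symm with h2 | h2
    · exact absurd h2 (pow_ne_zero _ hc0)
    · exact h2
  · by_contra hcon
    push Not at hcon
    refine hR.base q (fun i => ?_) h0
    rw [aeval_scale (hR.hom i) hc, hcon i, mul_zero]

/-- the coordinate of a point of the line -/
theorem p2_norm (hR : SetR κ s a F d) {q : PP} (hq : q ∈ surf F)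
    (h0 : q.rep 0 = 0) (h1 : q.rep 1 = 0) :
    ∃ w : ℂ, q = Projectivization.mk ℂ ![0, 0, 1, w] (p2_ne w) ∧
      aeval ![0, 0, 1, w] F = 0 ∧
      ∃ i, aeval ![0, 0, 1, w] (s i) ≠ 0 ∧ w ∉ clo (adj κ (a '' {i}ᶜ)) := by
  have h2 : q.rep 2 ≠ 0 := by
    intro h2
    have hc : ∀ j, q.rep j = q.rep 3 * (![0, 0, 0, 1] : Fin 4 → ℂ) j := by
      intro j
      fin_cases j
      · simp [h0]
      · simp [h1]
      · simp [h2]
      · simp
    obtain ⟨hF, i, hi⟩ := p2_rep hR hq h0 hc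
    refine p2_not hR hF hi fun j => ?_
    fin_cases j
    · exact zero_mem _
    · exact zero_mem _
    · exact zero_mem _
    · exact one_mem _
  have hc : ∀ j, q.rep j = q.rep 2 * (![0, 0, 1, q.rep 3 / q.rep 2] : Fin 4 → ℂ) j := by
    intro j
    fin_cases j
    · simp [h0]
    · simp [h1]
    · simp
    · simp [mul_div_cancel₀ _ h2]
  obtain ⟨hF, i, hi⟩ := p2_rep hR hq h0 hc
  refine ⟨q.rep 3 / q.rep 2, ?_, hF, i, hi, ?_⟩
  · conv_lhs => rw [← q.mk_rep]
    exact mk_eq_mk_of_mul q.rep_nonzero (p2_ne _) hc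
  · intro hw
    refine p2_not hR hF hi fun j => ?_
    fin_cases j
    · exact zero_mem _
    · exact zero_mem _
    · exact one_mem _
    · exact hw

theorem p2_inD (L : Fl) {w : ℂ} (hw : w ∉ clo L) (v : ℂ) :
    InD L ![0, 0, 1, w] ![0, 0, 1, v] :=
  line_inD L _ _ rfl rfl rfl rfl rfl rfl (by
    intro h
    exact hw (mem_clo.2 h))

theorem p2_coef (hR : SetR κ s a F d) : Coef (adj κ (Set.range a)) F := by
  intro m
  rw [hR.sum, coeff_sum]
  refine sum_mem fun l _ => ?_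
  rw [coeff_C_mul]
  exact mul_mem (subset_adj _ _ ⟨l, rfl⟩) (le_adj _ _ (hR.coef l m))

/-- `q` on the line; some `s_i (q) ≠ 0` (`base`); `a_i = - F_i (q) / s_i (q)`, `k_i` = field of the
other letters, so `q` is not over `clo k_i`; if `s_i (q') = 0` then (as `s_i` is not zero on the
line) `q'` is over `clo κ`, contradiction with the same argument for another letter; so
`s_i (q') ≠ 0`, and `q`, `q'` are conjugate over `k_i`, hence over `k_i (a_i)` -/
theorem conj_p2 (hd : 4 ≤ d) [Countable κ] (hR : SetR κ s a F d) {q q' : PP} (hq : q ∈ surf F)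
    (h0 : q.rep 0 = 0) (h1 : q.rep 1 = 0) (hq' : q' ∈ surf F) (h0' : q'.rep 0 = 0)
    (h1' : q'.rep 1 = 0) : ∃ σ ∈ Fix (adj κ (Set.range a)), act σ q = q' := by
  classical
  obtain ⟨w, hqw, hF, i, hi, hw⟩ := p2_norm hR hq h0 h1
  obtain ⟨w', hqw', hF', i', hi', hw'⟩ := p2_norm hR hq' h0' h1'
  have hw'κ : w' ∉ clo κ := fun h => hw' (clo_mono (le_adj _ _) h)
  have hiw' : aeval ![0, 0, 1, w'] (s i) ≠ 0 := by
    intro h
    exact hi (p2_inD κ hw'κ w (s i) (hR.coef i) h)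
  have hw'i : w' ∉ clo (adj κ (a '' {i}ᶜ)) := by
    intro h
    refine p2_not hR hF' hiw' fun j => ?_
    fin_cases j
    · exact zero_mem _
    · exact zero_mem _
    · exact one_mem _
    · exact h
  have hcount : Countable (a '' {i}ᶜ : Set ℂ) := ((Set.toFinite _).countable).to_subtype
  obtain ⟨σ, hσ, hσw⟩ := exists_fix_tr (adj κ (a '' {i}ᶜ)) hw hw'i
  have hσκ : σ ∈ Fix κ := Fix_mono (le_adj _ _) hσ
  have hS : ∀ l, σ (aeval ![0, 0, 1, w] (s l)) = aeval ![0, 0, 1, w'] (s l) := by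
    intro l
    rw [← aeval_fix (hR.coef l) hσκ]
    congr 2
    funext j
    fin_cases j
    · exact map_zero σ
    · exact map_zero σ
    · exact map_one σ
    · exact hσw
  have hl : ∀ l, l ≠ i → σ (a l) = a l := fun l hl => hσ _ (subset_adj _ _ ⟨l, hl, rfl⟩)
  have hai : σ (a i) = a i := by
    have e1 := congrArg σ hF
    rw [p2_sum hR, map_sum, map_zero, ← Finset.add_sum_erase _ _ (Finset.mem_univ i)] at e1
    have e2 := hF'
    rw [p2_sum hR, ← Finset.add_sum_erase _ _ (Finset.mem_univ i)] at e2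
    have e3 : ∑ l ∈ Finset.univ.erase i, σ (a l * aeval ![0, 0, 1, w] (s l)) =
        ∑ l ∈ Finset.univ.erase i, a l * aeval ![0, 0, 1, w'] (s l) := by
      refine Finset.sum_congr rfl fun l hl' => ?_
      rw [map_mul, hS, hl l (Finset.mem_erase.1 hl').1]
    rw [e3, map_mul, hS] at e1
    have e4 : (σ (a i) - a i) * aeval ![0, 0, 1, w'] (s i) = 0 := by
      linear_combination e1 - e2
    rcases mul_eq_zero.1 e4 with h | h
    · exact sub_eq_zero.1 h
    · exact absurd h hiw'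
  refine ⟨σ, ?_, ?_⟩
  · rw [mem_Fix_adj]
    refine ⟨hσκ, ?_⟩
    rintro x ⟨l, rfl⟩
    by_cases h : l = i
    · rw [h]
      exact hai
    · exact hl l h
  · rw [hqw, hqw', act_mk σ _ _ (map_ne_zero' σ (p2_ne w))]
    refine mk_eq_mk_of_mul _ _ (a := 1) fun j => ?_
    rw [one_mul]
    fin_cases j
    · exact map_zero σ
    · exact map_zero σ
    · exact map_one σ
    · exact hσw

theorem over_p2 (hd : 4 ≤ d) [Countable κ] (hR : SetR κ s a F d) {q : PP} (hq : q ∈ surf F)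
    (h0 : q.rep 0 = 0) (h1 : q.rep 1 = 0) : Over (clo (adj κ (Set.range a))) q := by
  obtain ⟨w, hqw, hF, -, -, -⟩ := p2_norm hR hq h0 h1
  have hw : w ∈ clo (adj κ (Set.range a)) := by
    by_contra hw
    have h2 : aeval ![0, 0, 1, (0 : ℂ)] F = 0 := p2_inD _ hw 0 F (p2_coef hR) hF
    have h3 : (Projectivization.mk ℂ ![0, 0, 1, (0 : ℂ)] (p2_ne 0) : PP) ∈ surf F :=
      (mem_surf_mk hR.smooth.1 (p2_ne 0)).2 h2
    have h4 : ∃ i, aeval ![0, 0, 1, (0 : ℂ)] (s i) ≠ 0 := by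
      by_contra hcon
      push Not at hcon
      refine hR.base (Projectivization.mk ℂ ![0, 0, 1, (0 : ℂ)] (p2_ne 0)) (fun i => ?_) ?_
      · exact (mem_zero_mk (hR.hom i) (p2_ne 0)).2 (hcon i)
      · exact (rep_mk_eq_zero (p2_ne 0) 0).2 rfl
    obtain ⟨i, hi⟩ := h4
    refine p2_not hR h2 hi fun j => ?_
    fin_cases j
    · exact zero_mem _
    · exact zero_mem _
    · exact one_mem _
    · exact zero_mem _
  rw [hqw]
  refine ⟨_, p2_ne w, fun j => ?_, rfl⟩
  fin_cases j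
  · exact zero_mem _
  · exact zero_mem _
  · exact one_mem _
  · exact hw

theorem orb_p2 (hd : 4 ≤ d) [Countable κ] (hR : SetR κ s a F d) {q : PP} (hq : q ∈ surf F)
    (h0 : q.rep 0 = 0) (h1 : q.rep 1 = 0) : Orb (adj κ (Set.range a)) q = hL F := by
  unfold Orb hL
  congr 1
  ext q'
  constructor
  · rintro ⟨σ, hσ, rfl⟩
    have h2 : ∀ j, q.rep j = 0 → (act σ q).rep j = 0 := by
      intro j hj
      refine (rep_mk_eq_zero (map_ne_zero' σ q.rep_nonzero) j).2 ?_
      rw [hj, map_zero]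
    exact ⟨(act_mem_surf hR.smooth.1 (p2_coef hR) hσ).2 hq, h2 0 h0, h2 1 h1⟩
  · rintro ⟨hq', h0', h1'⟩
    exact conj_p2 hd hR hq h0 h1 hq' h0' h1'

end Pool.Agent.VGS.V
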