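import Pool.Agent.VGV.Step
import Pool.Agent.VGV.P2

/-! Module Ind: induction over the plane, the line and the number of letters. -/

set_option autoImplicit false
set_option linter.unusedSectionVars false

open scoped LinearAlgebra.Projectivization
open MvPolynomial

namespace Pool.Agent.VGS.V

open Pool.Agent.LowDeg (surf IsSmoothForm)

variable {ι : Type} [Fintype ι] {κ : Fl} {s : ι → MvPolynomial (Fin 4) ℂ} {a : ι → ℂ}
  {F : MvPolynomial (Fin 4) ℂ} {d : ℕ}

private theorem in_tr (ha : AlgebraicIndependent κ a) (i : ι) :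
    Transcendental (adj κ (a '' {i}ᶜ)) (a i) := by
  have h1 := ha.transcendental_adjoin (s := {i}ᶜ) (i := i) (by simp)
  have h2 : a i ∉ clo (adj κ (a '' {i}ᶜ)) := by
    rw [mem_clo_adj]
    exact h1
  intro h3
  exact h2 (mem_clo.2 h3)

private theorem in_adj (κ : Fl) (a : ι → ℂ) (i : ι) :
    adj (adj κ (a '' {i}ᶜ)) {a i} = adj κ (Set.range a) := by
  rw [adj_adj]
  congr 1
  ext x
  constructor
  · rintro (⟨l, -, rfl⟩ | h)
    · exact ⟨l, rfl⟩
    · exact ⟨i, (Set.mem_singleton_iff.1 h).symm⟩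
  · rintro ⟨l, rfl⟩
    by_cases h : l = i
    · right
      rw [Set.mem_singleton_iff, h]
    · left
      exact ⟨l, h, rfl⟩

private theorem in_adj_mono {κ : Fl} {S T : Set ℂ} (h : S ⊆ T) : adj κ S ≤ adj κ T :=
  adj_le (le_adj _ _) (h.trans (subset_adj _ _))

private theorem in_coefC {k : Fl} {c : ℂ} (hc : c ∈ k) {G : MvPolynomial (Fin 4) ℂ}
    (hG : Coef k G) : Coef k (C c * G) := by
  intro m
  rw [coeff_C_mul]
  exact k.mul_mem hc (hG m)

private theorem in_coefG [DecidableEq ι] (hR : SetR κ s a F d) (i : ι) :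
    Coef (adj κ (a '' {i}ᶜ)) (F - C (a i) * s i) := by
  have h1 : F - C (a i) * s i = ∑ l ∈ Finset.univ.erase i, C (a l) * s l := by
    rw [hR.sum, ← Finset.add_sum_erase _ _ (Finset.mem_univ i)]
    ring
  rw [h1]
  intro m
  rw [coeff_sum]
  refine sum_mem fun l hl => ?_
  have h2 : a l ∈ adj κ (a '' {i}ᶜ) := subset_adj _ _ ⟨l, Finset.ne_of_mem_erase hl, rfl⟩
  exact in_coefC h2 ((hR.coef l).mono (le_adj _ _)) m

private theorem in_coefF (hR : SetR κ s a F d) : Coef (adj κ (Set.range a)) F := by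
  rw [hR.sum]
  intro m
  rw [coeff_sum]
  refine sum_mem fun l _ => ?_
  have h2 : a l ∈ adj κ (Set.range a) := subset_adj _ _ ⟨l, rfl⟩
  exact in_coefC h2 ((hR.coef l).mono (le_adj _ _)) m

private theorem in_smul {z : Fin 4 → ℂ} (hz : z ≠ 0) {c : ℂ} (hc : c ≠ 0) :
    mkP (c • z) = mkP z := by
  rw [mkP_eq hz, mkP_eq (smul_ne_zero hc hz)]
  exact mk_eq_mk_of_mul _ _ (a := c) fun i => rfl

/-- `E = adj κ (Set.range a)`. For `j = 1`, then `j = 0`: every point `q` of the surface over `clo E`
with `q_i = 0` for `i < j` has `Orb E q` in `W = ratQ F ⊔ span [base points] ⊔ span {hL F}`. For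
`j = 1` the points with `q_0 = q_1 = 0` are treated by `orb_p2`, for `j = 0` the points with
`q_0 = 0` by the case `j = 1`. The others: by induction on the finite set `J` of letters: `q` over
`clo (adj κ (a '' J))`, `s_l (q) = 0` for `l ∉ J`. If `s_l (q) = 0` for all `l ∈ J` then `q` is a base
point. Otherwise take `i ∈ J` with `s_i (q) ≠ 0` and `stepV` with `k₁ = adj κ (a '' {i}ᶜ)`,
`k₂ = adj κ (a '' (J \ {i}))`, `S = s i` -/
theorem thmR (hd : 4 ≤ d) [Countable κ] (hR : SetR κ s a F d) {y : Cy}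
    (hy : ∀ q ∈ y.support, q ∈ surf F ∧ Over (clo (adj κ (Set.range a))) q)
    (hst : ∀ σ ∈ Fix (adj κ (Set.range a)), actC σ y = y) :
    ∃ (b : Cy) (c : ℚ), (∀ q ∈ b.support, ∀ i, aeval q.rep (s i) = 0) ∧
      y - b - c • hL F ∈ ratQ F := by
  classical
  have hF : F.IsHomogeneous d := hR.smooth.1
  set E : Fl := adj κ (Set.range a) with hE
  have hκE : κ ≤ E := le_adj _ _
  let Bs : Set PP := {q | ∀ i, aeval q.rep (s i) = 0}
  let W : Submodule ℚ Cy := ratQ F ⊔ (Finsupp.supported ℚ ℚ Bs ⊔ Submodule.span ℚ {hL F})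
  have hN : ratQ F ≤ W := le_sup_left
  have hLW : hL F ∈ W :=
    (le_sup_right : _ ≤ W) ((le_sup_right : Submodule.span ℚ {hL F} ≤ _)
      (Submodule.subset_span rfl))
  have hBW : Finsupp.supported ℚ ℚ Bs ≤ W := le_sup_left.trans le_sup_right
  -- from one step to the next
  have hstep : ∀ (q : PP) (n : ℕ) (y' : Cy), 0 < n →
      (n : ℚ) • Orb E q + y' ∈ ratQ F → y' ∈ W → Orb E q ∈ W := by
    intro q n y' hn h1 h2
    have h3 : (n : ℚ) • Orb E q ∈ W := by
      have := W.sub_mem (hN h1) h2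
      rwa [add_sub_cancel_right] at this
    have h4 := W.smul_mem ((n : ℚ)⁻¹) h3
    rwa [smul_smul, inv_mul_cancel₀ (by exact_mod_cast hn.ne'), one_smul] at h4
  have hspan : ∀ y' : Cy, (∀ σ ∈ Fix E, actC σ y' = y') →
      (∀ q ∈ y'.support, Over (clo E) q) →
      (∀ q ∈ y'.support, Orb E q ∈ W) → y' ∈ W := by
    intro y' h1 h2 h3
    refine (Submodule.span_le.2 ?_) (mem_span_orb _ y' h1 h2)
    rintro w ⟨q, hq, rfl⟩
    exact h3 q hq
  -- the induction over the letters
  have hmain : ∀ j : Fin 4, (j : ℕ) ≤ 1 →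
      (∀ w : Fin 4 → ℂ, w ≠ 0 → (∀ i ≤ j, w i = 0) → mkP w ∈ surf F → Over (clo E) (mkP w) →
        Orb E (mkP w) ∈ W) →
      ∀ J : Finset ι, ∀ z : Fin 4 → ℂ, (∀ i < j, z i = 0) → z j = 1 → aeval z F = 0 →
        (∀ i, z i ∈ clo (adj κ (a '' (J : Set ι)))) → (∀ l, l ∉ J → aeval z (s l) = 0) →
        Orb E (mkP z) ∈ W := by
    intro j hj hinf J
    induction hn : J.card using Nat.strong_induction_on generalizing J with
    | _ n ih =>
      intro z hz0 hzj hzF hzC hzs
      have hz : z ≠ 0 := by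
        rintro rfl
        exact zero_ne_one hzj
      have hJE : adj κ (a '' (J : Set ι)) ≤ E := in_adj_mono (Set.image_subset_range _ _)
      have hzE : Over (clo E) (mkP z) := by
        rw [mkP_eq hz, over_mk hz hzj]
        exact fun i => clo_mono hJE (hzC i)
      by_cases hall : ∀ l ∈ J, aeval z (s l) = 0
      · have hb : ∀ l, aeval z (s l) = 0 := fun l => by
          by_cases hl : l ∈ J
          · exact hall l hl
          · exact hzs l hl
        refine hBW ?_
        unfold Orb
        rw [as2_sumSet (finite_orbit_pt E hzE)]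
        refine Submodule.sum_mem _ fun q' hq' => ?_
        rw [Set.Finite.mem_toFinset] at hq'
        obtain ⟨σ, hσ, rfl⟩ := hq'
        refine Finsupp.single_mem_supported ℚ _ ?_
        intro i
        rw [aeval_act_rep (hR.hom i) (hR.coef i) (Fix_mono hκE hσ), mkP_eq hz,
          mem_zero_mk (hR.hom i) hz]
        exact hb i
      · push Not at hall
        obtain ⟨i, hiJ, hi⟩ := hall
        have hk₁ : Countable (adj κ (a '' ({i}ᶜ : Set ι))) := by
          have : Countable (a '' ({i}ᶜ : Set ι)) := (Set.toFinite _).countable.to_subtype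
          exact countable_adj _ _
        have hk₂ : Countable (adj κ (a '' ((J.erase i : Finset ι) : Set ι))) := by
          have : Countable (a '' ((J.erase i : Finset ι) : Set ι)) :=
            (Set.toFinite _).countable.to_subtype
          exact countable_adj _ _
        have hk : adj κ (a '' ((J.erase i : Finset ι) : Set ι)) ≤ adj κ (a '' ({i}ᶜ : Set ι)) := by
          refine in_adj_mono (Set.image_mono ?_)
          intro l hl
          exact Finset.ne_of_mem_erase (Finset.mem_coe.1 hl)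
        obtain ⟨n', y', hn', hy1, hy2, hy3⟩ := stepV hd hR.smooth
          (adj κ (a '' ({i}ᶜ : Set ι))) (adj κ (a '' ((J.erase i : Finset ι) : Set ι))) hk j hj
          (hR.hom i) (in_tr hR.ind i) (in_coefG hR i) ((hR.coef i).mono (le_adj _ _)) hz0 hzj hzF
          hi (by
            intro l
            refine clo_mono ?_ (hzC l)
            refine adj_le ((le_adj _ _).trans (le_adj _ _)) ?_
            rintro x ⟨l', hl', rfl⟩
            by_cases h : l' = i
            · exact subset_adj _ _ (by rw [h]; rfl)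
            · exact le_adj _ _ (subset_adj _ _ ⟨l', Finset.mem_coe.2
                (Finset.mem_erase.2 ⟨h, Finset.mem_coe.1 hl'⟩), rfl⟩))
        rw [in_adj, ← hE] at hy1 hy2 hy3
        refine hstep _ n' y' hn' hy3 (hspan y' hy1 (fun q hq => (hy2 q hq).2.1) ?_)
        intro q hq
        obtain ⟨hqF, hqE, h4 | h4⟩ := hy2 q hq
        · obtain ⟨w, hw, hw0, rfl⟩ := h4
          exact hinf w hw hw0 hqF hqE
        · obtain ⟨w, hw0, hwj, rfl, hwS, hwC, hwD⟩ := h4
          have hw : w ≠ 0 := by
            rintro rfl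
            exact zero_ne_one hwj
          have hwF : aeval w F = 0 := by
            rw [mkP_eq hw, mem_surf_mk hF] at hqF
            exact hqF
          refine ih (J.erase i).card ?_ (J.erase i) rfl w hw0 hwj hwF hwC ?_
          · rw [← hn]
            exact Finset.card_erase_lt_of_mem hiJ
          · intro l hl
            by_cases h : l = i
            · rw [h]
              exact hwS
            · refine hwD _ ((hR.coef l).mono (le_adj _ _)) (hzs l ?_)
              intro hlJ
              exact hl (Finset.mem_erase.2 ⟨h, hlJ⟩)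
  -- points with given first coordinates
  have hpts : ∀ j : Fin 4, (j : ℕ) ≤ 1 →
      (∀ w : Fin 4 → ℂ, w ≠ 0 → (∀ i ≤ j, w i = 0) → mkP w ∈ surf F → Over (clo E) (mkP w) →
        Orb E (mkP w) ∈ W) →
      ∀ w : Fin 4 → ℂ, w ≠ 0 → (∀ i < j, w i = 0) → mkP w ∈ surf F → Over (clo E) (mkP w) →
        Orb E (mkP w) ∈ W := by
    intro j hj hinf w hw hw0 hwF hwE
    by_cases hwj : w j = 0
    · refine hinf w hw (fun i hi => ?_) hwF hwE
      rcases lt_or_eq_of_le hi with h | h
      · exact hw0 i h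
      · rw [h]
        exact hwj
    · have h1 : mkP ((w j)⁻¹ • w) = mkP w := in_smul hw (inv_ne_zero hwj)
      have h2 : ((w j)⁻¹ • w) j = 1 := by
        rw [Pi.smul_apply, smul_eq_mul, inv_mul_cancel₀ hwj]
      have h3 : ((w j)⁻¹ • w) ≠ 0 := smul_ne_zero (inv_ne_zero hwj) hw
      rw [← h1] at hwF hwE ⊢
      refine hmain j hj hinf Finset.univ _ ?_ h2 ?_ ?_ ?_
      · intro i hi
        rw [Pi.smul_apply, hw0 i hi, smul_zero]
      · rw [mkP_eq h3, mem_surf_mk hF] at hwF
        exact hwF
      · rw [mkP_eq h3, over_mk h3 h2] at hwE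
        rw [Finset.coe_univ, Set.image_univ]
        exact hwE
      · intro l hl
        exact absurd (Finset.mem_univ l) hl
  have hone := hpts 1 (by simp) (by
    intro w hw hw0 hwF hwE
    have h1 : Orb E (mkP w) = hL F := by
      refine orb_p2 hd hR hwF ?_ ?_
      · rw [mkP_eq hw, rep_mk_eq_zero hw]
        exact hw0 0 (by decide)
      · rw [mkP_eq hw, rep_mk_eq_zero hw]
        exact hw0 1 (by decide)
    rw [h1]
    exact hLW)
  have hzero := hpts 0 (by simp) (by
    intro w hw hw0 hwF hwE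
    refine hone w hw (fun i hi => ?_) hwF hwE
    have : i = 0 := by
      apply Fin.ext
      have : (i : ℕ) < 1 := hi
      simpa using this
    rw [this]
    exact hw0 0 le_rfl)
  have hyW : y ∈ W := by
    refine hspan y hst (fun q hq => (hy q hq).2) ?_
    intro q hq
    obtain ⟨hqF, hqE⟩ := hy q hq
    have h1 : mkP q.rep = q := by
      rw [mkP_eq q.rep_nonzero, Projectivization.mk_rep]
    rw [← h1] at hqF hqE ⊢
    exact hzero q.rep q.rep_nonzero (fun i hi => absurd hi (Fin.not_lt_zero i)) hqF hqE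
  obtain ⟨n, hn, v, hv, hnv⟩ := Submodule.mem_sup.1 hyW
  obtain ⟨b, hb, v₂, hv₂, hvv⟩ := Submodule.mem_sup.1 hv
  obtain ⟨c, hc⟩ := Submodule.mem_span_singleton.1 hv₂
  refine ⟨b, c, fun q hq => (Finsupp.mem_supported ℚ b).1 hb hq, ?_⟩
  have h1 : y - b - c • hL F = n := by
    rw [← hnv, ← hvv, hc]
    abel
  rw [h1]
  exact hn

end Pool.Agent.VGS.V
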