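import Pool.Agent.VGV.Fibre

/-! Module Letters: the letters at a generic point. -/

set_option autoImplicit false

open scoped LinearAlgebra.Projectivization
open MvPolynomial

namespace Pool.Agent.VGS.V

open Pool.Agent.LowDeg (surf IsSmoothForm)

variable {ι : Type} [Fintype ι] {g : ι → MvPolynomial (Fin 4) ℂ} {d : ℕ} {a : ι → ℂ}

/-- the value of a polynomial over `k` at `z` is in `k (z)` -/
private theorem lt_aeval_mem {L : Fl} {G : MvPolynomial (Fin 4) ℂ} (hG : Coef L G) {z : Fin 4 → ℂ}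
    (hz : ∀ i, z i ∈ L) : aeval z G ∈ L := by
  rw [aeval_def, eval₂_eq']
  refine sum_mem fun m _ => mul_mem ?_ (prod_mem fun i _ => pow_mem (hz i) _)
  rw [Algebra.algebraMap_self_apply]
  exact hG m

private theorem lt_range_z {k : Fl} {z : Fin 4 → ℂ} (h1 : z 0 = 1) :
    adj k (Set.range ![z 1, z 2, z 3]) = adj k (Set.range z) := by
  apply le_antisymm
  · refine adj_le (le_adj _ _) ?_
    rintro _ ⟨i, rfl⟩
    fin_cases i
    · exact subset_adj _ _ ⟨1, rfl⟩
    · exact subset_adj _ _ ⟨2, rfl⟩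
    · exact subset_adj _ _ ⟨3, rfl⟩
  · refine adj_le (le_adj _ _) ?_
    rintro _ ⟨i, rfl⟩
    fin_cases i
    · change z 0 ∈ _
      rw [h1]
      exact one_mem _
    · exact subset_adj _ _ ⟨0, rfl⟩
    · exact subset_adj _ _ ⟨1, rfl⟩
    · exact subset_adj _ _ ⟨2, rfl⟩

/-- the coefficient `a i₀` -/
private theorem lt_coef [DecidableEq ι] {z : Fin 4 → ℂ} {i₀ : ι} (h0 : aeval z (g i₀) ≠ 0)
    (hzF : aeval z (∑ i, C (a i) * g i) = 0) :
    a i₀ = - ∑ i : {i // i ≠ i₀}, a i * (aeval z (g i) / aeval z (g i₀)) := by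
  have h1 : ∑ i, a i * aeval z (g i) = 0 := by
    rw [← hzF, map_sum]
    refine Finset.sum_congr rfl fun i _ => ?_
    rw [map_mul, aeval_C]
    rfl
  have h2 : ∑ i, a i * aeval z (g i) =
      a i₀ * aeval z (g i₀) + ∑ i : {i // i ≠ i₀}, a i * aeval z (g i) := by
    exact Fintype.sum_eq_add_sum_subtype_ne (fun i => a i * aeval z (g i)) i₀
  have h3 : ∑ i : {i // i ≠ i₀}, a i * (aeval z (g i) / aeval z (g i₀)) =
      (∑ i : {i // i ≠ i₀}, a i * aeval z (g i)) / aeval z (g i₀) := by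
    rw [Finset.sum_div]
    exact Finset.sum_congr rfl fun i _ => (mul_div_assoc _ _ _).symm
  rw [h3, ← neg_div, eq_div_iff h0]
  linear_combination h1 - h2

/-- the big family -/
private theorem lt_big [DecidableEq ι] (hd : 4 ≤ d) {k : Fl} [Countable k]
    (hgk : ∀ i, Coef k (g i)) (ha : AlgebraicIndependent k a)
    (hF : IsSmoothForm (∑ i, C (a i) * g i) d)
    {z : Fin 4 → ℂ} (hz : z ≠ 0) (h1 : z 0 = 1)
    (hp : Projectivization.mk ℂ z hz ∈ Gen (adj k (Set.range a)) (∑ i, C (a i) * g i))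
    {i₀ : ι} (h0 : aeval z (g i₀) ≠ 0) :
    AlgebraicIndependent k (Sum.elim (fun i : {i // i ≠ i₀} => a i) ![z 1, z 2, z 3]) := by
  have hcr : Countable (Set.range a) := (Set.countable_range _).to_subtype
  have hcK : Countable (adj k (Set.range a)) := countable_adj k _
  have hFK : Coef (adj k (Set.range a)) (∑ i, C (a i) * g i) := by
    intro m
    rw [coeff_sum]
    refine sum_mem fun i _ => ?_
    rw [coeff_C_mul]
    exact mul_mem (subset_adj _ _ ⟨i, rfl⟩) (le_adj _ _ (hgk i m))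
  have hzF := (mem_surf_mk hF.hom hz).1 hp.1
  rw [gen_iff hd hF _ hFK hz hzF h1 (j := 1) (k := 2) (by decide) (by decide) (by decide)] at hp
  have h2 := FrA.algInd_sum.mpr ⟨ha, hp⟩
  refine FrA.algInd_count h2 ?_ ?_
  · have hy : ∀ x, Sum.elim (fun i : {i // i ≠ i₀} => a i) ![z 1, z 2, z 3] x ∈
        adj k (Set.range (Sum.elim (fun i : {i // i ≠ i₀} => a i) ![z 1, z 2, z 3])) :=
      fun x => subset_adj _ _ ⟨x, rfl⟩
    have hzm : ∀ i, z i ∈
        adj k (Set.range (Sum.elim (fun i : {i // i ≠ i₀} => a i) ![z 1, z 2, z 3])) := by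
      intro i
      fin_cases i
      · change z 0 ∈ _
        rw [h1]
        exact one_mem _
      · exact hy (Sum.inr 0)
      · exact hy (Sum.inr 1)
      · exact hy (Sum.inr 2)
    have hgm : ∀ i, aeval z (g i) ∈
        adj k (Set.range (Sum.elim (fun i : {i // i ≠ i₀} => a i) ![z 1, z 2, z 3])) :=
      fun i => lt_aeval_mem ((hgk i).mono (le_adj _ _)) hzm
    rintro (x | i)
    · apply le_clo
      fin_cases x
      · exact hzm 1
      · exact hzm 2
    · apply le_clo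
      change a i ∈ _
      by_cases hi : i = i₀
      · rw [hi, lt_coef h0 hzF]
        exact neg_mem (sum_mem fun j _ => mul_mem (hy (Sum.inl j)) (div_mem (hgm _) (hgm _)))
      · exact hy (Sum.inl ⟨i, hi⟩)
  · have h3 : 0 < Fintype.card ι := Fintype.card_pos_iff.2 ⟨i₀⟩
    have h4 : Fintype.card {i // i ≠ i₀} = Fintype.card ι - 1 := by
      rw [Fintype.card_subtype_compl, Fintype.card_subtype_eq]
    rw [Nat.card_sum, Nat.card_sum]
    simp only [Nat.card_eq_fintype_card, Fintype.card_fin]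
    rw [h4]
    omega

/-- count: `z 1, z 2` and the `a i` are independent over `k`; all are algebraic over
`k (z, a i (i ≠ i₀))`, `i₀` with `g i₀ (z) ≠ 0` -/
theorem gen_z (hd : 4 ≤ d) (hg : ∀ i, (g i).IsHomogeneous d) {k : Fl} [Countable k]
    (hgk : ∀ i, Coef k (g i)) (hbpf : ∀ z : Fin 4 → ℂ, z ≠ 0 → ∃ i, aeval z (g i) ≠ 0)
    (ha : AlgebraicIndependent k a) (hF : IsSmoothForm (∑ i, C (a i) * g i) d)
    {z : Fin 4 → ℂ} (hz : z ≠ 0) (h1 : z 0 = 1)
    (hp : Projectivization.mk ℂ z hz ∈ Gen (adj k (Set.range a)) (∑ i, C (a i) * g i)) :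
    AlgebraicIndependent k ![z 1, z 2, z 3] := by
  classical
  obtain ⟨i₀, h0⟩ := hbpf z hz
  exact (FrA.algInd_sum.mp (lt_big hd hgk ha hF hz h1 hp h0)).1

theorem lettersV [DecidableEq ι] (hd : 4 ≤ d) (hg : ∀ i, (g i).IsHomogeneous d) {k : Fl} [Countable k]
    (hgk : ∀ i, Coef k (g i)) (hbpf : ∀ z : Fin 4 → ℂ, z ≠ 0 → ∃ i, aeval z (g i) ≠ 0)
    (ha : AlgebraicIndependent k a) (hF : IsSmoothForm (∑ i, C (a i) * g i) d)
    {z : Fin 4 → ℂ} (hz : z ≠ 0) (h1 : z 0 = 1)
    (hp : Projectivization.mk ℂ z hz ∈ Gen (adj k (Set.range a)) (∑ i, C (a i) * g i))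
    (hfin : (Fib g z).Finite) :
    ∃ i₀ : ι, aeval z (g i₀) ≠ 0 ∧
      SetR (adj k (Set.range z))
        (fun i : {i // i ≠ i₀} => g i - C (aeval z (g i) / aeval z (g i₀)) * g i₀)
        (fun i : {i // i ≠ i₀} => a i) (∑ i, C (a i) * g i) d ∧
      adj (adj k (Set.range z)) (Set.range fun i : {i // i ≠ i₀} => a i) =
        adj (adj k (Set.range a)) (Set.range z) ∧
      ∀ q : PP, (∀ i : {i // i ≠ i₀},
        aeval q.rep (g i - C (aeval z (g i) / aeval z (g i₀)) * g i₀) = 0) ↔ q ∈ Fib g z := by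
  obtain ⟨i₀, h0⟩ := hbpf z hz
  have hzF := (mem_surf_mk hF.hom hz).1 hp.1
  have hbig := lt_big hd hgk ha hF hz h1 hp h0
  have hz3 := gen_z hd hg hgk hbpf ha hF hz h1 hp
  have hzm : ∀ i, z i ∈ adj k (Set.range z) := fun i => subset_adj _ _ ⟨i, rfl⟩
  have hgm : ∀ i, aeval z (g i) ∈ adj k (Set.range z) :=
    fun i => lt_aeval_mem ((hgk i).mono (le_adj _ _)) hzm
  have hfib : ∀ q : PP, (∀ i : {i // i ≠ i₀},
      aeval q.rep (g i - C (aeval z (g i) / aeval z (g i₀)) * g i₀) = 0) ↔ q ∈ Fib g z := by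
    intro q
    constructor
    · intro h
      have h2 : ∀ i, aeval q.rep (g i) * aeval z (g i₀) = aeval z (g i) * aeval q.rep (g i₀) := by
        intro i
        by_cases hi : i = i₀
        · rw [hi, mul_comm]
        · have h3 := h ⟨i, hi⟩
          rw [map_sub, map_mul, aeval_C, sub_eq_zero] at h3
          change aeval q.rep (g i) = aeval z (g i) / aeval z (g i₀) * _ at h3
          rw [h3]
          field_simp
      intro i j
      have h4 := h2 i
      have h5 := h2 j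
      apply mul_right_cancel₀ h0
      linear_combination aeval z (g j) * h4 - aeval z (g i) * h5
    · intro h i
      have h2 := h i i₀
      rw [map_sub, map_mul, aeval_C, sub_eq_zero]
      change aeval q.rep (g i) = aeval z (g i) / aeval z (g i₀) * _
      rw [div_mul_eq_mul_div, eq_div_iff h0, h2, mul_comm]
  refine ⟨i₀, h0, ⟨hF, ?_, ?_, ?_, ?_, ?_, ?_⟩, ?_, hfib⟩
  · intro i
    refine (hg i).sub ?_
    have h2 := (isHomogeneous_C (Fin 4) (aeval z (g i) / aeval z (g i₀))).mul (hg i₀)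
    rwa [zero_add] at h2
  · intro i m
    rw [coeff_sub, coeff_C_mul]
    exact sub_mem (le_adj _ _ (hgk i m))
      (mul_mem (div_mem (hgm _) (hgm _)) (le_adj _ _ (hgk i₀ m)))
  · rw [← lt_range_z h1]
    exact (FrA.algInd_sum.mp hbig).2
  · have h2 : ∑ i, C (a i) * g i =
        C (a i₀) * g i₀ + ∑ i : {i // i ≠ i₀}, C (a i) * g i := by
      exact Fintype.sum_eq_add_sum_subtype_ne (fun i => C (a i) * g i) i₀
    have h3 : ∑ i : {i // i ≠ i₀}, C (a i) * (g i - C (aeval z (g i) / aeval z (g i₀)) * g i₀) =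
        ∑ i : {i // i ≠ i₀}, C (a i) * g i -
          C (∑ i : {i // i ≠ i₀}, a i * (aeval z (g i) / aeval z (g i₀))) * g i₀ := by
      rw [map_sum, Finset.sum_mul, ← Finset.sum_sub_distrib]
      refine Finset.sum_congr rfl fun i _ => ?_
      rw [C_mul]
      ring
    rw [h2, h3, lt_coef h0 hzF, C_neg]
    ring
  · intro q hq
    obtain ⟨y, hy, hy0, hqy, -, -⟩ := fib_points hg hgk hbpf h1 hz3 hfin ((hfib q).1 hq)
    intro h
    rw [hqy, rep_mk_eq_zero hy, hy0] at h
    exact one_ne_zero h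
  · refine hfin.subset fun q hq => (hfib q).1 hq
  · apply le_antisymm
    · refine adj_le (adj_le ((le_adj _ _).trans (le_adj _ _)) ?_) ?_
      · rintro _ ⟨i, rfl⟩
        exact subset_adj _ _ ⟨i, rfl⟩
      · rintro _ ⟨i, rfl⟩
        exact le_adj _ _ (subset_adj _ _ ⟨i, rfl⟩)
    · refine adj_le (adj_le ((le_adj _ _).trans (le_adj _ _)) ?_) ?_
      · rintro _ ⟨i, rfl⟩
        by_cases hi : i = i₀
        · rw [hi, lt_coef h0 hzF]
          exact neg_mem (sum_mem fun j _ => mul_mem (subset_adj _ _ ⟨j, rfl⟩)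
            (le_adj _ _ (div_mem (hgm _) (hgm _))))
        · exact subset_adj _ _ ⟨⟨i, hi⟩, rfl⟩
      · rintro _ ⟨i, rfl⟩
        exact le_adj _ _ (hzm i)

end Pool.Agent.VGS.V
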