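import Pool.Agent.VGV.Defs

/-! Module TauV: two-forms at the points of a fibre. -/

set_option autoImplicit false

open scoped LinearAlgebra.Projectivization
open MvPolynomial

namespace Pool.Agent.VGS.V

open Pool.Agent.LowDeg (surf IsSmoothForm)

variable {F : MvPolynomial (Fin 4) ℂ} {d : ℕ}

private theorem hom_x0 : (X 0 ^ (d - 4) : MvPolynomial (Fin 4) ℂ).IsHomogeneous (d - 4) := by
  have := (isHomogeneous_X ℂ (0 : Fin 4)).pow (d - 4)
  rwa [one_mul] at this

private theorem aeval_x0 {y : Fin 4 → ℂ} (h1 : y 0 = 1) :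
    aeval y (X 0 ^ (d - 4) : MvPolynomial (Fin 4) ℂ) = 1 := by
  rw [map_pow, aeval_X, h1, one_pow]

theorem tau_mul (hd : 4 ≤ d) (hF : IsSmoothForm F d) {L : Fl} (hFL : Coef L F)
    {D₁ D₂ : Derivation ℤ ℂ ℂ} (h₁ : Kills L D₁) (h₂ : Kills L D₂) {y : Fin 4 → ℂ} (hy : y ≠ 0)
    (h1 : y 0 = 1) (hyF : aeval y F = 0) {f : MvPolynomial (Fin 4) ℂ}
    (hf : f.IsHomogeneous (d - 4)) :
    tau F D₁ D₂ f (Projectivization.mk ℂ y hy) =
      aeval y f * tau F D₁ D₂ (X 0 ^ (d - 4)) (Projectivization.mk ℂ y hy) := by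
  obtain ⟨J, hJ⟩ := exists_isResC hd hF hFL h₁ h₂ hy hyF
  rw [tau_eq hd hF hFL h₁ h₂ hy hyF hf hJ, tau_eq hd hF hFL h₁ h₂ hy hyF hom_x0 hJ,
    aeval_x0 h1, one_mul]

private theorem kills_clo' {L : Fl} {D : Derivation ℤ ℂ ℂ} (h : Kills L D) : Kills (clo L) D := by
  intro x hx
  have hx' : IsAlgebraic L.toSubfield x := mem_clo.1 hx
  let D' : Derivation L.toSubfield ℂ ℂ := Derivation.mk'
    { toFun := D
      map_add' := map_add D
      map_smul' := fun a x => by
        rw [Algebra.smul_def, D.leibniz]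
        have ha : D (algebraMap L.toSubfield ℂ a) = 0 := h a a.2
        rw [ha, smul_zero, add_zero]
        rfl } (fun a b => D.leibniz a b)
  have hint : IsIntegral L.toSubfield x := hx'.isIntegral
  have h1 : D' (Polynomial.aeval x (minpoly L.toSubfield x)) =
      Polynomial.aeval x (Polynomial.derivative (minpoly L.toSubfield x)) • D' x :=
    D'.map_aeval _ _
  rw [minpoly.aeval, map_zero] at h1
  have h2 : Polynomial.aeval x (Polynomial.derivative (minpoly L.toSubfield x)) ≠ 0 :=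
    (minpoly.irreducible hint).separable.aeval_derivative_ne_zero (minpoly.aeval _ _)
  rcases smul_eq_zero.mp h1.symm with h3 | h3
  · exact absurd h3 h2
  · exact h3

private theorem kills_adj_set {L : Fl} {D : Derivation ℤ ℂ ℂ} (h : Kills L D) {S : Set ℂ}
    (hS : ∀ w ∈ S, D w = 0) : Kills (adj L S) D := by
  intro x hx
  rw [mem_adj_iff] at hx
  induction hx using IntermediateField.adjoin_induction with
  | mem x hx => exact hS x hx
  | algebraMap a => exact h a a.2
  | add x y _ _ hx hy => rw [map_add, hx, hy, add_zero]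
  | inv x _ hx => rw [Derivation.leibniz_inv, hx, smul_zero]
  | mul x y _ _ hx hy => rw [D.leibniz, hx, hy, smul_zero, smul_zero, add_zero]

private theorem minors {y a b : Fin 4 → ℂ} (h0 : y 0 = 1) (ha : a 0 = 0) (hb : b 0 = 0)
    (h : ∀ v : Fin 4 → ℂ, LowDeg.det4 v y a b = 0) (i j : Fin 4) : a i * b j = a j * b i := by
  have h1 := h (Pi.single 1 1)
  have h2 := h (Pi.single 2 1)
  have h3 := h (Pi.single 3 1)
  rw [LowDeg.SmoothExtAux.det4_expand] at h1 h2 h3
  simp [h0, ha, hb] at h1 h2 h3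
  fin_cases i <;> fin_cases j <;> simp [ha, hb] <;> first | ring1 | linear_combination h1 | linear_combination -h1 | linear_combination h2 | linear_combination -h2 | linear_combination h3 | linear_combination -h3

private theorem exists_comb {a b : Fin 4 → ℂ} (h : ∀ i j, a i * b j = a j * b i) :
    ∃ α β : ℂ, (α ≠ 0 ∨ β ≠ 0) ∧ ∀ i, α * a i + β * b i = 0 := by
  by_cases ha : ∀ i, a i = 0
  · exact ⟨1, 0, Or.inl one_ne_zero, fun i => by rw [ha i]; ring⟩
  · push Not at ha
    obtain ⟨i, hi⟩ := ha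
    exact ⟨b i, -a i, Or.inr (neg_ne_zero.2 hi), fun j => by linear_combination h j i⟩

/-- if `y` and `z` are algebraic over each other then the two-form on `(D₁, D₂)` vanishes at both or
at none: if it vanishes at `y` then some combination `D ≠ 0` of `D₁`, `D₂` kills `L (y)` (compare
`Dom.lean`), hence `z`, and then it vanishes at `z` -/
theorem tau_ne_of_alg (hd : 4 ≤ d) (hF : IsSmoothForm F d) {L : Fl} [Countable L] (hFL : Coef L F)
    {D₁ D₂ : Derivation ℤ ℂ ℂ} (h₁ : Kills L D₁) (h₂ : Kills L D₂) {z y : Fin 4 → ℂ} (hz : z ≠ 0)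
    (hy : y ≠ 0) (h1 : z 0 = 1) (h1y : y 0 = 1) (hzF : aeval z F = 0) (hyF : aeval y F = 0)
    (hzy : ∀ i, z i ∈ clo (adj L (Set.range y)))
    (h : tau F D₁ D₂ (X 0 ^ (d - 4)) (Projectivization.mk ℂ z hz) ≠ 0) :
    tau F D₁ D₂ (X 0 ^ (d - 4)) (Projectivization.mk ℂ y hy) ≠ 0 := by
  intro hy0
  apply h
  obtain ⟨J, hJ⟩ := exists_isResC hd hF hFL h₁ h₂ hy hyF
  rw [tau_eq hd hF hFL h₁ h₂ hy hyF hom_x0 hJ, aeval_x0 h1y, one_mul] at hy0
  subst hy0
  have hdet : ∀ v : Fin 4 → ℂ, LowDeg.det4 v y (fun i => D₁ (y i)) (fun i => D₂ (y i)) = 0 := by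
    intro v
    rw [hJ v, zero_mul]
  have hone : ∀ D : Derivation ℤ ℂ ℂ, D (y 0) = 0 := fun D => by
    rw [h1y, Derivation.map_one_eq_zero]
  obtain ⟨α, β, hαβ, hc⟩ := exists_comb (minors h1y (hone D₁) (hone D₂) hdet)
  have hD : Kills (clo (adj L (Set.range y))) (α • D₁ + β • D₂) := by
    refine kills_clo' (kills_adj_set ?_ ?_)
    · intro x hx
      simp [h₁ x hx, h₂ x hx]
    · rintro _ ⟨i, rfl⟩
      simpa using hc i
  have hcz : ∀ i, α * D₁ (z i) + β * D₂ (z i) = 0 := fun i => by simpa using hD _ (hzy i)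
  have hJz : IsResC F D₁ D₂ z 0 := by
    intro v
    rw [zero_mul]
    rcases hαβ with hα | hβ
    · have h5 : ∀ i, D₁ (z i) = -(β / α) * D₂ (z i) := by
        intro i
        have h6 : D₁ (z i) = -(β * D₂ (z i)) / α := by
          rw [eq_div_iff hα]
          linear_combination hcz i
        rw [h6]
        ring
      simp only [LowDeg.SmoothExtAux.det4_expand, h5]
      ring
    · have h5 : ∀ i, D₂ (z i) = -(α / β) * D₁ (z i) := by
        intro i
        have h6 : D₂ (z i) = -(α * D₁ (z i)) / β := by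
          rw [eq_div_iff hβ]
          linear_combination hcz i
        rw [h6]
        ring
      simp only [LowDeg.SmoothExtAux.det4_expand, h5]
      ring
  rw [tau_eq hd hF hFL h₁ h₂ hz hzF hom_x0 hJz, mul_zero]

end Pool.Agent.VGS.V
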