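import Pool.Agent.VGV.Defs

/-! Module SepMon: the monomials whose exponents of `X₁, X₂, X₃` are divisible by `a, b, c`: the
forms of degree `d - 4` separate the points of the general fibre if `1 + a + b + c ≤ d`. -/

set_option autoImplicit false

open scoped LinearAlgebra.Projectivization
open MvPolynomial

namespace Pool.Agent.VGS.V

/-- The monomials of degree `d` in which the exponents of `X₁, X₂, X₃` are divisible by
`a, b, c`. -/
abbrev MonW (a b c d : ℕ) : Type :=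
  {m : Fin 4 →₀ ℕ // m.degree = d ∧ a ∣ m 1 ∧ b ∣ m 2 ∧ c ∣ m 3}

/-- These monomials as forms. -/
noncomputable def gW (a b c d : ℕ) : MonW a b c d → MvPolynomial (Fin 4) ℂ :=
  fun m => monomial m.1 1

private theorem sm_aeval (m : Fin 4 →₀ ℕ) (z : Fin 4 → ℂ) :
    aeval z (monomial m (1 : ℂ)) = z 0 ^ m 0 * z 1 ^ m 1 * z 2 ^ m 2 * z 3 ^ m 3 := by
  rw [aeval_monomial, map_one, one_mul, Finsupp.prod_fintype _ _ (by simp), Fin.prod_univ_four]

theorem gW_hom (a b c d : ℕ) (i : MonW a b c d) : (gW a b c d i).IsHomogeneous d :=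
  isHomogeneous_monomial _ i.2.1

/-- the exponent `(d - n) e₀ + n e_l` -/
private noncomputable def ex (d n : ℕ) (l : Fin 4) : Fin 4 →₀ ℕ :=
  Finsupp.single 0 (d - n) + Finsupp.single l n

private theorem ex_deg {d n : ℕ} (h : n ≤ d) (l : Fin 4) : (ex d n l).degree = d := by
  unfold ex
  rw [map_add, Finsupp.degree_single, Finsupp.degree_single, Nat.sub_add_cancel h]

private theorem ex_apply {d n : ℕ} {l : Fin 4} (hl : l ≠ 0) (i : Fin 4) :
    ex d n l i = if i = 0 then d - n else if i = l then n else 0 := by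
  unfold ex
  rw [Finsupp.add_apply, Finsupp.single_apply, Finsupp.single_apply]
  by_cases h0 : i = 0
  · subst h0
    rw [if_pos rfl, if_pos rfl, if_neg hl, add_zero]
  · by_cases h1 : i = l
    · subst h1
      rw [if_neg (Ne.symm h0), if_pos rfl, if_neg h0, zero_add]
    · rw [if_neg (Ne.symm h0), if_neg (Ne.symm h1), if_neg h0, if_neg h1, add_zero]

/-- the divisor of the exponent of `X_l` -/
private def wt (a b c : ℕ) (l : Fin 4) : ℕ := ![1, a, b, c] l

private theorem ex_mem {a b c d n : ℕ} {l : Fin 4} (hl : l ≠ 0) (h : n ≤ d)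
    (hn : wt a b c l ∣ n) : (ex d n l).degree = d ∧ a ∣ ex d n l 1 ∧ b ∣ ex d n l 2 ∧
      c ∣ ex d n l 3 := by
  refine ⟨ex_deg h l, ?_, ?_, ?_⟩
  · rw [ex_apply hl, if_neg (by decide)]
    split_ifs with h1
    · subst h1
      exact hn
    · exact dvd_zero _
  · rw [ex_apply hl, if_neg (by decide)]
    split_ifs with h1
    · subst h1
      exact hn
    · exact dvd_zero _
  · rw [ex_apply hl, if_neg (by decide)]
    split_ifs with h1
    · subst h1
      exact hn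
    · exact dvd_zero _

private theorem ex_aeval {d n : ℕ} {l : Fin 4} (hl : l ≠ 0) (z : Fin 4 → ℂ) :
    aeval z (monomial (ex d n l) (1 : ℂ)) = z 0 ^ (d - n) * z l ^ n := by
  rw [sm_aeval, ex_apply hl, ex_apply hl, ex_apply hl, ex_apply hl]
  fin_cases l
  · exact absurd rfl hl
  · simp
  · simp
  · simp

theorem gW_bpf {a b c d : ℕ} (had : a ∣ d) (hbd : b ∣ d) (hcd : c ∣ d) (z : Fin 4 → ℂ)
    (hz : z ≠ 0) : ∃ i, aeval z (gW a b c d i) ≠ 0 := by
  obtain ⟨l, hl⟩ : ∃ l, z l ≠ 0 := by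
    by_contra h
    push Not at h
    exact hz (funext h)
  by_cases h0 : l = 0
  · subst h0
    refine ⟨⟨ex d 0 1, ex_mem (by decide) (Nat.zero_le _) (dvd_zero _)⟩, ?_⟩
    unfold gW
    rw [ex_aeval (by decide), pow_zero, mul_one, Nat.sub_zero]
    exact pow_ne_zero _ hl
  · refine ⟨⟨ex d d l, ex_mem h0 le_rfl ?_⟩, ?_⟩
    · fin_cases l
      · exact absurd rfl h0
      · exact had
      · exact hbd
      · exact hcd
    · unfold gW
      rw [ex_aeval h0, Nat.sub_self, pow_zero, one_mul]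
      exact pow_ne_zero _ hl

/-- the points of the fibre -/
private theorem fib_mon {a b c d : ℕ} (had : a ∣ d) (hbd : b ∣ d) (hcd : c ∣ d) (hd : 0 < d)
    {z : Fin 4 → ℂ} (hz : ∀ i, z i ≠ 0) {q : PP} (hq : q ∈ Fib (gW a b c d) z) :
    q.rep 0 ≠ 0 ∧ ∀ l : Fin 4, l ≠ 0 →
      (q.rep l / q.rep 0) ^ wt a b c l = (z l / z 0) ^ wt a b c l := by
  have hdl : ∀ l : Fin 4, l ≠ 0 → wt a b c l ∣ d := by
    intro l hl
    fin_cases l
    · exact absurd rfl hl
    · exact had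
    · exact hbd
    · exact hcd
  have key : ∀ (n n' : ℕ) (l l' : Fin 4), l ≠ 0 → l' ≠ 0 → n ≤ d → n' ≤ d → wt a b c l ∣ n →
      wt a b c l' ∣ n' → q.rep 0 ^ (d - n) * q.rep l ^ n * (z 0 ^ (d - n') * z l' ^ n') =
        q.rep 0 ^ (d - n') * q.rep l' ^ n' * (z 0 ^ (d - n) * z l ^ n) := by
    intro n n' l l' hl hl' hn hn' h h'
    have h1 := hq ⟨ex d n l, ex_mem hl hn h⟩ ⟨ex d n' l', ex_mem hl' hn' h'⟩
    unfold gW at h1
    rwa [ex_aeval hl, ex_aeval hl', ex_aeval hl, ex_aeval hl'] at h1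
  have h0 : q.rep 0 ≠ 0 := by
    intro h0
    apply q.rep_nonzero
    funext l
    by_cases hl : l = 0
    · rw [hl, h0]
      rfl
    · have h1 := key d 0 l 1 hl (by decide) le_rfl (Nat.zero_le _) (hdl l hl) (dvd_zero _)
      rw [Nat.sub_self, Nat.sub_zero, pow_zero, pow_zero, pow_zero, pow_zero, h0,
        zero_pow hd.ne'] at h1
      simp only [one_mul, mul_one, zero_mul] at h1
      have h2 := (mul_eq_zero.1 h1).resolve_right (pow_ne_zero _ (hz 0))
      exact pow_eq_zero_iff hd.ne' |>.1 h2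
  refine ⟨h0, fun l hl => ?_⟩
  have hle : wt a b c l ≤ d := Nat.le_of_dvd hd (hdl l hl)
  have h1 := key (wt a b c l) 0 l 1 hl (by decide) hle (Nat.zero_le _) dvd_rfl (dvd_zero _)
  rw [Nat.sub_zero, pow_zero, pow_zero, mul_one, mul_one] at h1
  rw [div_pow, div_pow, div_eq_div_iff (pow_ne_zero _ h0) (pow_ne_zero _ (hz 0))]
  have e1 : q.rep 0 ^ d = q.rep 0 ^ (d - wt a b c l) * q.rep 0 ^ wt a b c l := by
    rw [← pow_add, Nat.sub_add_cancel hle]
  have e2 : z 0 ^ d = z 0 ^ (d - wt a b c l) * z 0 ^ wt a b c l := by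
    rw [← pow_add, Nat.sub_add_cancel hle]
  rw [e1, e2] at h1
  have h3 : q.rep 0 ^ (d - wt a b c l) * z 0 ^ (d - wt a b c l) ≠ 0 :=
    mul_ne_zero (pow_ne_zero _ h0) (pow_ne_zero _ (hz 0))
  apply mul_left_cancel₀ h3
  linear_combination h1

/-- the form of degree `n - 1` which is zero at the other points -/
private noncomputable def fa (n : ℕ) (t : ℂ) (l : Fin 4) : MvPolynomial (Fin 4) ℂ :=
  ∑ i ∈ Finset.range n, X l ^ i * (C t * X 0) ^ (n - 1 - i)

private theorem fa_hom (n : ℕ) (t : ℂ) (l : Fin 4) : (fa n t l).IsHomogeneous (n - 1) := by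
  refine IsHomogeneous.sum _ _ _ fun i hi => ?_
  have h1 := (isHomogeneous_X ℂ l).pow i
  have h2 := (isHomogeneous_C_mul_X t (0 : Fin 4)).pow (n - 1 - i)
  have h := h1.mul h2
  have hi' := Finset.mem_range.1 hi
  have h3 : 1 * i + 1 * (n - 1 - i) = n - 1 := by omega
  rwa [h3] at h

private theorem fa_aeval (n : ℕ) (t : ℂ) (l : Fin 4) (y : Fin 4 → ℂ) :
    aeval y (fa n t l) = ∑ i ∈ Finset.range n, y l ^ i * (t * y 0) ^ (n - 1 - i) := by
  unfold fa
  rw [map_sum]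
  refine Finset.sum_congr rfl fun i _ => ?_
  rw [map_mul, map_pow, map_pow, map_mul, aeval_X, aeval_X, aeval_C]
  rfl

private theorem fa_ne {n : ℕ} (hn : 0 < n) {l : Fin 4} {y : Fin 4 → ℂ} (h0 : y 0 ≠ 0)
    (hl : y l ≠ 0) : aeval y (fa n (y l / y 0) l) ≠ 0 := by
  rw [fa_aeval, div_mul_cancel₀ _ h0, geom_sum₂_self]
  exact mul_ne_zero (Nat.cast_ne_zero.2 hn.ne') (pow_ne_zero _ hl)

private theorem fa_zero {n : ℕ} {l : Fin 4} {y : Fin 4 → ℂ} (h0 : y 0 ≠ 0) {t : ℂ}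
    (ht : (y l / y 0) ^ n = t ^ n) (hne : y l / y 0 ≠ t) : aeval y (fa n t l) = 0 := by
  have h1 := (Commute.all (y l) (t * y 0)).geom_sum₂_mul n
  rw [← fa_aeval n t l y] at h1
  have h2 : y l ^ n - (t * y 0) ^ n = 0 := by
    rw [mul_pow, ← ht, div_pow, div_mul_cancel₀ _ (pow_ne_zero _ h0), sub_self]
  rw [h2] at h1
  refine (mul_eq_zero.1 h1).resolve_right ?_
  intro h3
  apply hne
  rw [div_eq_iff h0]
  exact sub_eq_zero.1 h3

/-- **The monomials with exponents divisible by `a, b, c`** satisfy the separation property. -/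
theorem sep_mon {a b c d : ℕ} (had : a ∣ d) (hbd : b ∣ d) (hcd : c ∣ d)
    (hd : 1 + a + b + c ≤ d) {z : Fin 4 → ℂ} (hz : ∀ i, z i ≠ 0) :
    Sep (gW a b c d) (d - 4) z := by
  have hd0 : 0 < d := by omega
  have ha : 0 < a := Nat.pos_of_dvd_of_pos had hd0
  have hb : 0 < b := Nat.pos_of_dvd_of_pos hbd hd0
  have hc : 0 < c := Nat.pos_of_dvd_of_pos hcd hd0
  intro q hq
  obtain ⟨h0, hpow⟩ := fib_mon had hbd hcd hd0 hz hq
  have hw : ∀ l : Fin 4, l ≠ 0 → 0 < wt a b c l := by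
    intro l hl
    fin_cases l
    · exact absurd rfl hl
    · exact ha
    · exact hb
    · exact hc
  have hne : ∀ l : Fin 4, l ≠ 0 → q.rep l ≠ 0 := by
    intro l hl h
    have h1 := hpow l hl
    rw [h, zero_div, zero_pow (hw l hl).ne'] at h1
    exact pow_ne_zero _ (div_ne_zero (hz l) (hz 0)) h1.symm
  have hcomp : 1 * (d - 4 - ((a - 1) + (b - 1) + (c - 1))) + (a - 1) + (b - 1) + (c - 1) =
      d - 4 := by omega
  refine ⟨X 0 ^ (d - 4 - ((a - 1) + (b - 1) + (c - 1))) * fa a (q.rep 1 / q.rep 0) 1 *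
    fa b (q.rep 2 / q.rep 0) 2 * fa c (q.rep 3 / q.rep 0) 3, ?_, ?_, ?_⟩
  · have h := ((((isHomogeneous_X ℂ (0 : Fin 4)).pow
      (d - 4 - ((a - 1) + (b - 1) + (c - 1)))).mul (fa_hom a (q.rep 1 / q.rep 0) 1)).mul
      (fa_hom b (q.rep 2 / q.rep 0) 2)).mul (fa_hom c (q.rep 3 / q.rep 0) 3)
    rwa [hcomp] at h
  · rw [map_mul, map_mul, map_mul, map_pow, aeval_X]
    exact mul_ne_zero (mul_ne_zero (mul_ne_zero (pow_ne_zero _ h0)
      (fa_ne ha h0 (hne 1 (by decide)))) (fa_ne hb h0 (hne 2 (by decide))))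
      (fa_ne hc h0 (hne 3 (by decide)))
  · intro q' hq' hqq
    obtain ⟨h0', hpow'⟩ := fib_mon had hbd hcd hd0 hz hq'
    have hex : ∃ l : Fin 4, l ≠ 0 ∧ q'.rep l / q'.rep 0 ≠ q.rep l / q.rep 0 := by
      by_contra hcon
      push Not at hcon
      apply hqq
      rw [← Projectivization.mk_rep q', ← Projectivization.mk_rep q]
      refine mk_eq_mk_of_mul _ _ (a := q'.rep 0 / q.rep 0) fun l => ?_
      by_cases hl : l = 0
      · rw [hl, div_mul_cancel₀ _ h0]
      · have h1 := hcon l hl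
        rw [div_eq_iff h0'] at h1
        rw [h1]
        ring
    have hpq : ∀ l : Fin 4, l ≠ 0 →
        (q'.rep l / q'.rep 0) ^ wt a b c l = (q.rep l / q.rep 0) ^ wt a b c l := fun l hl => by
      rw [hpow' l hl, hpow l hl]
    obtain ⟨l, hl, hlne⟩ := hex
    rw [map_mul, map_mul, map_mul]
    fin_cases l
    · exact absurd rfl hl
    · have h1 : aeval q'.rep (fa a (q.rep 1 / q.rep 0) 1) = 0 := fa_zero h0' (hpq 1 hl) hlne
      rw [h1]
      ring
    · have h1 : aeval q'.rep (fa b (q.rep 2 / q.rep 0) 2) = 0 := fa_zero h0' (hpq 2 hl) hlne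
      rw [h1]
      ring
    · have h1 : aeval q'.rep (fa c (q.rep 3 / q.rep 0) 3) = 0 := fa_zero h0' (hpq 3 hl) hlne
      rw [h1]
      ring

end Pool.Agent.VGS.V
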