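import Pool.Agent.VGV.Dil
import Pool.Agent.VGV.Defs

/-! Module Step: one step (port of `VGS.asm_step1` with `M = 1`). -/

set_option autoImplicit false

open scoped LinearAlgebra.Projectivization
open MvPolynomial

namespace Pool.Agent.VGS.V

open Pool.Agent.LowDeg (surf IsSmoothForm)

private theorem step_act {σ : ℂ ≃+* ℂ} {z : Fin 4 → ℂ} (hz : z ≠ 0) :
    act σ (mkP z) = mkP fun i => σ (z i) := by
  rw [mkP_eq hz, mkP_eq (map_ne_zero' σ hz), act_mk σ _ _ (map_ne_zero' σ hz)]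

theorem stepV {F : MvPolynomial (Fin 4) ℂ} {d : ℕ} (hd : 4 ≤ d) (hF : IsSmoothForm F d)
    (k₁ k₂ : Fl) [Countable k₁] [Countable k₂] (hk : k₂ ≤ k₁) (j : Fin 4) (hj : (j : ℕ) ≤ 1)
    {S : MvPolynomial (Fin 4) ℂ} (hS : S.IsHomogeneous d) {a : ℂ} (ha : Transcendental k₁ a)
    (hG₀ : Coef k₁ (F - C a * S)) (hSk : Coef k₂ S) {z : Fin 4 → ℂ} (hz0 : ∀ i < j, z i = 0)
    (hzj : z j = 1) (hzF : aeval z F = 0) (hzS : aeval z S ≠ 0)
    (hzC : ∀ i, z i ∈ clo (adj k₂ {a})) :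
    ∃ (n : ℕ) (y : Cy), 0 < n ∧ (∀ σ ∈ Fix (adj k₁ {a}), actC σ y = y) ∧
      (∀ q ∈ y.support, q ∈ surf F ∧ Over (clo (adj k₁ {a})) q ∧
        ((∃ w : Fin 4 → ℂ, w ≠ 0 ∧ (∀ i ≤ j, w i = 0) ∧ q = mkP w) ∨
          ∃ w : Fin 4 → ℂ, (∀ i < j, w i = 0) ∧ w j = 1 ∧ q = mkP w ∧ aeval w S = 0 ∧
            (∀ i, w i ∈ clo k₂) ∧ InD k₂ z w)) ∧
      (n : ℚ) • Orb (adj k₁ {a}) (mkP z) + y ∈ ratQ F := by
  classical
  have hdet : (1 : Matrix (Fin 4) (Fin 4) ℂ).det ≠ 0 := by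
    rw [Matrix.det_one]
    exact one_ne_zero
  have hSk₁ : Coef k₁ S := hSk.mono hk
  have hFE : Coef (adj k₁ {a}) F := by
    intro m
    have h1 : coeff m F = coeff m (F - C a * S) + a * coeff m S := by
      rw [coeff_sub, coeff_C_mul]
      ring
    rw [h1]
    exact add_mem (le_adj _ _ (hG₀ m))
      (mul_mem (subset_adj _ _ rfl) (le_adj _ _ (hSk₁ m)))
  have hkE : adj k₂ {a} ≤ adj k₁ {a} := adj_le (hk.trans (le_adj _ _)) (subset_adj _ _)
  have hz : z ≠ 0 := by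
    rintro rfl
    exact zero_ne_one hzj
  have hzE : Over (clo (adj k₁ {a})) (mkP z) := by
    rw [mkP_eq hz, over_mk hz hzj]
    exact fun i => clo_mono hkE (hzC i)
  have hdil := dilV k₁ j hj F S hF.hom hS a ha hSk₁ hG₀ z hz0 hzj hzF hzS
    (fun i => clo_mono hkE (hzC i))
  obtain ⟨u, hu, s, hs0, hsj, hsG, hsC, hsn, ⟨V₀, hV₀, hu₀, hs₀⟩, hconj, hinf⟩ := hdil
  have hEc : Countable (adj k₁ {a}) := inferInstance
  have hEk : k₂ ≤ adj k₁ {a} := hk.trans (le_adj _ _)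
  clear hG₀ ha hkE
  generalize hEdef : adj k₁ {a} = E at *
  have hME : ∀ i j, (1 : Matrix (Fin 4) (Fin 4) ℂ) i j ∈ E := by
    intro i j
    rw [Matrix.one_apply]
    split_ifs
    · exact one_mem E
    · exact zero_mem E
  have hs : s ≠ 0 := by
    rintro rfl
    exact zero_ne_one hsj
  -- the family
  have hsOver : Over (clo (adj E {u})) (mkP s) := by
    rw [mkP_eq hs, over_mk hs hsj]
    exact hsC
  have hfin := finite_orbit_pt (adj E {u}) hsOver
  obtain ⟨T, hTnd, hTmem⟩ : ∃ T : Multiset PP, T.Nodup ∧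
      ∀ q, q ∈ T ↔ ∃ σ ∈ Fix (adj E {u}), act σ (mkP s) = q := by
    refine ⟨hfin.toFinset.val, hfin.toFinset.nodup, fun q => ?_⟩
    rw [Finset.mem_val, Set.Finite.mem_toFinset]
    rfl
  have hT : IsFam E u T := by
    refine ⟨fun q hq => ?_, fun σ hσ => ?_⟩
    · obtain ⟨σ, hσ, rfl⟩ := (hTmem q).1 hq
      exact (over_clo_act hσ).2 hsOver
    · refine (Multiset.Nodup.ext (hTnd.map (act_injective σ)) hTnd).2 fun q => ?_
      rw [Multiset.mem_map]
      constructor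
      · rintro ⟨q', hq', rfl⟩
        obtain ⟨τ, hτ, rfl⟩ := (hTmem q').1 hq'
        exact (hTmem _).2 ⟨σ * τ, (Fix _).mul_mem hσ hτ, by rw [act_mul]⟩
      · intro hq
        obtain ⟨τ, hτ, rfl⟩ := (hTmem q).1 hq
        refine ⟨act (σ⁻¹ * τ) (mkP s), (hTmem _).2
          ⟨_, (Fix _).mul_mem ((Fix _).inv_mem hσ) hτ, rfl⟩, ?_⟩
        rw [← act_mul, mul_inv_cancel_left]
  have hsT : mkP s ∈ T := (hTmem _).2 ⟨1, (Fix _).one_mem, act_one _⟩
  -- its members are on the surface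
  have hsF : mkP s ∈ surf F := by
    rw [mkP_eq hs, mem_surf_mk hF.hom]
    exact hsG
  have hspP : SpP V₀ (clo E) (mkP s) (mkP z) := by
    rw [mkP_eq hs, mkP_eq hz]
    exact (spP_mk hV₀ hs hz hsj hzj).2 hs₀
  have hFixE : ∀ σ ∈ Fix (adj E {u}), σ ∈ Fix E := fun σ hσ => Fix_mono (le_adj _ _) hσ
  have hTF : ∀ q ∈ T, q ∈ surf F := by
    intro q hq
    obtain ⟨σ, hσ, rfl⟩ := (hTmem q).1 hq
    exact (act_mem_surf hF.hom hFE (hFixE σ hσ)).2 hsF
  -- limits
  have hEu : adj E {u} ≤ adj (clo E) {u} :=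
    adj_le ((le_clo E).trans (le_adj _ _)) (subset_adj _ _)
  have hTOver : ∀ q ∈ T, Over (clo (adj (clo E) {u})) q := fun q hq =>
    (hT.isOver q hq).mono (clo_mono hEu)
  obtain ⟨V₁, hV₁, hu₁⟩ := exists_place (clo_clo E) hu (one_mem (clo E))
  have hex₀ : ∀ q ∈ T, ∃ q', SpP V₀ (clo E) q q' := fun q hq =>
    exists_spP (clo_clo E) hV₀ hu hu₀ (hTOver q hq)
  have hex₁ : ∀ q ∈ T, ∃ q', SpP V₁ (clo E) q q' := fun q hq =>
    exists_spP (clo_clo E) hV₁ hu hu₁ (hTOver q hq)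
  choose! f hf using hex₀
  choose! g hg using hex₁
  have hlim₀ : ∀ q ∈ T, ((∃ w : Fin 4 → ℂ, w ≠ 0 ∧ (∀ i ≤ j, w i = 0) ∧ f q = mkP w) ∨
      ∃ w : Fin 4 → ℂ, (∀ i < j, w i = 0) ∧ w j = 1 ∧ f q = mkP w ∧ aeval w S = 0 ∧
            (∀ i, w i ∈ clo k₂) ∧ InD k₂ z w) ∨
      f q ∈ {q' | ∃ σ ∈ Fix E, act σ (mkP z) = q'} := by
    intro q hq
    have h1 := hf q hq
    obtain ⟨σ, hσ, rfl⟩ := (hTmem q).1 hq
    have hlim := asm_lim (M := 1) (zero_mem E) hdet hME hs0 hsj hV₀ hu₀ hσ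
      (q := f (act σ (mkP s))) (by rw [Matrix.one_mulVec]; exact h1)
    simp only [Matrix.one_mulVec] at hlim
    rcases hlim with h2 | ⟨V', hV', hu', w, hw, h2⟩
    · exact Or.inl (Or.inl h2)
    · have hσE : σ ∈ Fix E := hFixE σ hσ
      obtain ⟨-, hwD, hwc⟩ := hconj V' hV' hu' w hw
      have hwD₂ : InD k₂ z w := fun p hp hzp => hwD p (hp.mono hk) hzp
      by_cases hwS : aeval w S = 0
      · refine Or.inl (Or.inr ⟨fun i => σ (w i), ?_, ?_, h2, ?_, ?_, ?_⟩)
        · intro i hi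
          have h3 := hwD₂ (X i) (fun m => by
            rw [coeff_X']
            split_ifs
            · exact one_mem _
            · exact zero_mem _) (by rw [aeval_X, hz0 i hi])
          rw [aeval_X] at h3
          change σ (w i) = 0
          rw [h3, map_zero]
        · have h3 := hwD₂ (X j - 1) (fun m => by
            rw [coeff_sub, coeff_X', coeff_one]
            refine sub_mem ?_ ?_
            · split_ifs
              · exact one_mem _
              · exact zero_mem _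
            · split_ifs
              · exact one_mem _
              · exact zero_mem _) (by rw [map_sub, aeval_X, map_one, hzj, sub_self])
          rw [map_sub, aeval_X, map_one, sub_eq_zero] at h3
          change σ (w j) = 1
          rw [h3, map_one]
        · rw [aeval_fix (hSk.mono hEk) hσE, hwS, map_zero]
        · intro i
          exact (fix_mem_clo (Fix_mono hEk hσE)).2
            (dropV k₂ a S hSk z w hzC hzS hwS hwD₂ i)
        · intro p hp hzp
          rw [aeval_fix (hp.mono hEk) hσE, hwD₂ p hp hzp, map_zero]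
      · obtain ⟨τ, hτ, h3⟩ := hwc hwS
        refine Or.inr ⟨σ * τ, (Fix E).mul_mem hσE hτ, ?_⟩
        rw [step_act hz, h2]
        congr 1
        funext i
        rw [← h3 i]
        rfl
  have hlim₁ : ∀ q ∈ T, ∃ w : Fin 4 → ℂ, w ≠ 0 ∧ (∀ i ≤ j, w i = 0) ∧ g q = mkP w := by
    intro q hq
    have h1 := hg q hq
    obtain ⟨σ, hσ, rfl⟩ := (hTmem q).1 hq
    have hlim := asm_lim (M := 1) (one_mem E) hdet hME hs0 hsj hV₁ hu₁ hσ
      (q := g (act σ (mkP s))) (by rw [Matrix.one_mulVec]; exact h1)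
    simp only [Matrix.one_mulVec] at hlim
    rcases hlim with h2 | ⟨V', hV', hu', w, hw, h2⟩
    · exact h2
    · obtain ⟨i, hi⟩ := hinf V' hV' hu'
      exact absurd ((hw i).mem hV') hi
  -- the cycles
  have hst₀ : ∀ σ ∈ Fix E, actC σ (cycQ (T.map f)) = cycQ (T.map f) := fun σ hσ => by
    rw [actC_cycQ, stable_ms hu hT (zero_mem E) hV₀ hu₀ hf hσ]
  have hst₁ : ∀ σ ∈ Fix E, actC σ (cycQ (T.map g)) = cycQ (T.map g) := fun σ hσ => by
    rw [actC_cycQ, stable_ms hu hT (one_mem E) hV₁ hu₁ hg hσ]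
  refine ⟨(T.map f).count (mkP z), cycQ (T.map f) - cycQ (T.map g) -
    ((T.map f).count (mkP z) : ℚ) • Orb E (mkP z), ?_, ?_, ?_, ?_⟩
  · rw [Multiset.count_pos, Multiset.mem_map]
    exact ⟨_, hsT, SpP.unique hV₀ (hf _ hsT) hspP⟩
  · intro σ hσ
    rw [map_sub, map_sub, map_smul, hst₀ σ hσ, hst₁ σ hσ, actC_Orb hzE hσ]
  · intro q hq
    have hq' := Finsupp.mem_support_iff.1 hq
    rw [Finsupp.sub_apply, Finsupp.sub_apply, Finsupp.smul_apply, smul_eq_mul] at hq'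
    have key : q ∈ T.map g ∨ (q ∈ T.map f ∧
        q ∉ {q' | ∃ σ ∈ Fix E, act σ (mkP z) = q'}) := by
      by_cases hO : q ∈ {q' | ∃ σ ∈ Fix E, act σ (mkP z) = q'}
      · left
        by_contra hcon
        apply hq'
        have h1 : Orb E (mkP z) q = 1 := by
          unfold Orb
          rw [asm_sumSet_apply (finite_orbit_pt E hzE), if_pos hO]
        have h2 : cycQ (T.map f) q = ((T.map f).count (mkP z) : ℚ) := by
          obtain ⟨σ, hσ, rfl⟩ := hO
          rw [← hst₀ σ hσ, actC_apply, act_inv_act, cycQ_apply]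
        rw [h1, h2, cycQ_apply, Multiset.count_eq_zero_of_notMem hcon]
        simp
      · by_cases hg' : q ∈ T.map g
        · exact Or.inl hg'
        · refine Or.inr ⟨?_, hO⟩
          by_contra hcon
          apply hq'
          have h1 : Orb E (mkP z) q = 0 := by
            unfold Orb
            rw [asm_sumSet_apply (finite_orbit_pt E hzE), if_neg hO]
          rw [h1, cycQ_apply, cycQ_apply, Multiset.count_eq_zero_of_notMem hcon,
            Multiset.count_eq_zero_of_notMem hg']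
          simp
    have hFC : Coef (clo E) F := hFE.mono (le_clo E)
    rcases key with h1 | ⟨h1, h2⟩
    · obtain ⟨p', hp', rfl⟩ := Multiset.mem_map.1 h1
      exact ⟨SpP.mem_surf hV₁ hF.hom hFC (hg p' hp') (hTF p' hp'), (hg p' hp').over,
        Or.inl (hlim₁ p' hp')⟩
    · obtain ⟨p', hp', rfl⟩ := Multiset.mem_map.1 h1
      refine ⟨SpP.mem_surf hV₀ hF.hom hFC (hf p' hp') (hTF p' hp'), (hf p' hp').over, ?_⟩
      rcases hlim₀ p' hp' with h3 | h3
      · exact h3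
      · exact absurd h3 h2
  · have h5 : (((T.map f).count (mkP z) : ℕ) : ℚ) • Orb E (mkP z) +
        (cycQ (T.map f) - cycQ (T.map g) -
          (((T.map f).count (mkP z) : ℕ) : ℚ) • Orb E (mkP z)) =
        cycQ (T.map f) - cycQ (T.map g) := by abel
    rw [h5]
    exact link_ms hu hT hF.hom hFE hTF hV₀ hV₁ hu₀ hu₁ hf hg

end Pool.Agent.VGS.V
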